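import Mathlib

/-!
# Algorithms that use their input numbers only through ring operations and tests of closeness

An algorithm of this kind computes one after another the values of integer polynomials in the
numbers of the input.  For every computed value `v` it learns

* for each value `u` computed before, whether `|u - v| ≤ K`, and if so the number `u - v` (so it
  learns in particular which of the computed values are equal);
* the residue of `v` modulo `q` (the low-order digits);
* the value `v` itself if `|v| ≤ K`.

The next polynomial, and at the end the output, may depend in an arbitrary way on everything that
has been learnt.
-/

set_option autoImplicit false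

namespace Pool.Agent.W962.Generic

/-- What is learnt about a new value `v`, when `old` is the list of the values computed before:
the difference `u - v` for each `u` in `old` with `|u - v| ≤ K`, the residue of `v` modulo `q`, and
`v` itself if `|v| ≤ K`. -/
def answer (q K : ℤ) (old : List ℤ) (v : ℤ) : List (Option ℤ) × ℤ × Option ℤ :=
  (old.map fun u => if |u - v| ≤ K then some (u - v) else none, v % q,
    if |v| ≤ K then some v else none)

/-- A deterministic algorithm for the input numbers `x i`, `i : σ`: `next h` is the next polynomial
to be computed and `output h` the output, where `h` is the list of the answers received so far
(the last answer comes first); the degrees of the polynomials are at most `d`. -/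
structure RingAlgorithm (σ : Type) (d : ℕ) where
  next : List (List (Option ℤ) × ℤ × Option ℤ) → MvPolynomial σ ℤ
  degree_le : ∀ h, (next h).totalDegree ≤ d
  output : List (List (Option ℤ) × ℤ × Option ℤ) → Bool

namespace RingAlgorithm

variable {σ : Type} {d : ℕ}

/-- The values computed in the first `t` steps on the input `x` (the last value comes first) and the
answers. -/
noncomputable def run (A : RingAlgorithm σ d) (q K : ℤ) (x : σ → ℤ) :
    ℕ → List ℤ × List (List (Option ℤ) × ℤ × Option ℤ)
  | 0 => ([], [])
  | t + 1 =>
    let s := A.run q K x t
    let v := MvPolynomial.eval x (A.next s.2)
    (v :: s.1, answer q K s.1 v :: s.2)

/-- The output on the input `x` after `N` values have been computed. -/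
noncomputable def accepts (A : RingAlgorithm σ d) (q K : ℤ) (N : ℕ) (x : σ → ℤ) : Bool :=
  A.output (A.run q K x N).2

end RingAlgorithm

end Pool.Agent.W962.Generic
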