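import Mathlib

/-!
# Counting zeros of polynomials
-/

set_option autoImplicit false

namespace Pool.Agent.W962.Generic

open MvPolynomial

theorem totalDegree_aeval_le {σ τ R : Type*} [CommRing R] (g : σ → MvPolynomial τ R)
    (hg : ∀ i, (g i).totalDegree ≤ 1) (p : MvPolynomial σ R) :
    (aeval g p).totalDegree ≤ p.totalDegree := by
  rw [aeval_def, eval₂_eq]
  refine totalDegree_finsetSum_le fun m hm => ?_
  refine (totalDegree_mul _ _).trans ?_
  rw [algebraMap_eq, totalDegree_C, zero_add]
  refine (totalDegree_finsetProd _ _).trans ?_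
  refine le_trans ?_ (le_totalDegree hm)
  rw [Finsupp.sum]
  refine Finset.sum_le_sum fun i _ => ?_
  refine (totalDegree_pow _ _).trans ?_
  calc m i * (g i).totalDegree ≤ m i * 1 := Nat.mul_le_mul_left _ (hg i)
    _ = m i := mul_one _

theorem schwartz_zippel {σ : Type*} [Fintype σ] [DecidableEq σ] (p : MvPolynomial σ ℤ) (hp : p ≠ 0) (d : ℕ)
    (hd : p.totalDegree ≤ d) (S : Finset ℤ) :
    S.card * ((Fintype.piFinset fun _ : σ => S).filter fun x => eval x p = 0).card ≤
      d * (Fintype.piFinset fun _ : σ => S).card := by
  let e := Fintype.equivFin σ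
  have hp' : rename e p ≠ 0 := by
    intro h
    exact hp (rename_injective e e.injective (by rw [h, map_zero]))
  have h1 := schwartz_zippel_totalDegree hp' S
  have h2 : ((Fintype.piFinset fun _ : σ => S).filter fun x => eval x p = 0).card =
      ((Fintype.piFinset fun _ : Fin (Fintype.card σ) => S).filter
        fun x => eval x (rename e p) = 0).card := by
    refine Finset.card_bij (fun x _ => x ∘ e.symm) ?_ ?_ ?_
    · intro x hx
      simp only [Finset.mem_filter, Fintype.mem_piFinset, Function.comp_apply] at hx ⊢
      refine ⟨fun i => hx.1 _, ?_⟩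
      rw [eval_rename]
      have : (x ∘ e.symm) ∘ e = x := by ext i; simp
      rw [this]
      exact hx.2
    · intro x _ y _ hxy
      ext i
      have := congrFun hxy (e i)
      simpa using this
    · intro y hy
      refine ⟨y ∘ e, ?_, by ext i; simp⟩
      simp only [Finset.mem_filter, Fintype.mem_piFinset, Function.comp_apply] at hy ⊢
      refine ⟨fun i => hy.1 _, ?_⟩
      rw [eval_rename] at hy
      exact hy.2
  have hcube : (Fintype.piFinset fun _ : σ => S).card = S.card ^ Fintype.card σ := by
    rw [Fintype.card_piFinset, Finset.prod_const, Finset.card_univ]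
  rw [h2, hcube]
  have hdeg : (rename e p).totalDegree ≤ d := (totalDegree_rename_le _ _).trans hd
  rcases Nat.eq_zero_or_pos S.card with h0 | hpos
  · rw [h0]; simp
  · set z := ((Fintype.piFinset fun _ : Fin (Fintype.card σ) => S).filter
        fun x => eval x (rename e p) = 0).card with hz
    have h3 : ((z : ℚ≥0) / (S.card : ℚ≥0) ^ (Fintype.card σ)) ≤ d / S.card := by
      refine h1.trans ?_
      gcongr
    have hS : (0 : ℚ≥0) < S.card := by exact_mod_cast hpos
    rw [div_le_div_iff₀ (by positivity) hS] at h3
    have h4 : z * S.card ≤ d * S.card ^ (Fintype.card σ) := by exact_mod_cast h3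
    linarith [mul_comm z S.card]

/-- A substitution which does not change the variables modulo `χ` does not change polynomials
modulo `χ`. -/
theorem dvd_sub_aeval {σ R : Type*} [CommRing R] (χ : MvPolynomial σ R) (g : σ → MvPolynomial σ R)
    (hg : ∀ i, χ ∣ X i - g i) (p : MvPolynomial σ R) : χ ∣ p - aeval g p := by
  rw [← Ideal.mem_span_singleton, ← Ideal.Quotient.eq]
  have h : (Ideal.Quotient.mkₐ R (Ideal.span {χ})) =
      (Ideal.Quotient.mkₐ R (Ideal.span {χ})).comp (aeval g) := by
    apply MvPolynomial.algHom_ext
    intro i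
    simp only [Ideal.Quotient.mkₐ_eq_mk, AlgHom.coe_comp, Function.comp_apply, aeval_X]
    rw [Ideal.Quotient.eq, Ideal.mem_span_singleton]
    exact hg i
  have := congrArg (fun φ => φ p) h
  simpa using this

end Pool.Agent.W962.Generic
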