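import Mathlib
import Pool.Agent.W962.Generic.Model
import Pool.Agent.W962.Generic.SZ

/-!
# From algorithms to sets of polynomials
-/

set_option autoImplicit false

namespace Pool.Agent.W962.Generic

open MvPolynomial

variable {σ : Type} {d : ℕ}

open Classical in
/-- The answer on a typical input. -/
noncomputable def symAnswer (q K : ℤ) (old : List (MvPolynomial σ ℤ)) (f : MvPolynomial σ ℤ) :
    List (Option ℤ) × ℤ × Option ℤ :=
  (old.map fun g => if g - f = C (eval 0 (g - f)) ∧ |eval 0 (g - f)| ≤ K then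
      some (eval 0 (g - f)) else none,
    eval 0 f % q,
    if f = C (eval 0 f) ∧ |eval 0 f| ≤ K then some (eval 0 f) else none)

/-- The run on a typical input. -/
noncomputable def sym (A : RingAlgorithm σ d) (q K : ℤ) :
    ℕ → List (MvPolynomial σ ℤ) × List (List (Option ℤ) × ℤ × Option ℤ)
  | 0 => ([], [])
  | t + 1 =>
    let s := sym A q K t
    let f := A.next s.2
    (f :: s.1, symAnswer q K s.1 f :: s.2)

/-- The input `x` is typical for the polynomials in `L`. -/
structure Faithful (q K : ℤ) (x : σ → ℤ) (L : List (MvPolynomial σ ℤ)) : Prop where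
  close : ∀ f ∈ L, ∀ g ∈ L, |eval x f - eval x g| ≤ K → f - g = C (eval 0 (f - g))
  res : ∀ f ∈ L, eval x f % q = eval 0 f % q
  small : ∀ f ∈ L, |eval x f| ≤ K → f = C (eval 0 f)

theorem ite_eq (K : ℤ) (x : σ → ℤ) (f : MvPolynomial σ ℤ)
    (h : |eval x f| ≤ K → f = C (eval 0 f)) [Decidable (f = C (eval 0 f) ∧ |eval 0 f| ≤ K)] :
    (if |eval x f| ≤ K then some (eval x f) else none) =
      if f = C (eval 0 f) ∧ |eval 0 f| ≤ K then some (eval 0 f) else none := by
  by_cases h1 : |eval x f| ≤ K
  · have h2 := h h1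
    have h3 : eval x f = eval 0 f := by
      rw [h2]; simp
    rw [if_pos h1, if_pos ⟨h2, h3 ▸ h1⟩, h3]
  · rw [if_neg h1, if_neg]
    rintro ⟨h2, h3⟩
    apply h1
    rw [h2]
    simpa using h3

theorem run_eq (A : RingAlgorithm σ d) (q K : ℤ) (x : σ → ℤ) (t : ℕ)
    (h : Faithful q K x (sym A q K t).1) :
    A.run q K x t = ((sym A q K t).1.map (eval x), (sym A q K t).2) := by
  classical
  induction t with
  | zero => rfl
  | succ t ih =>
    have h' : Faithful q K x (sym A q K t).1 :=
      ⟨fun f hf g hg => h.close f (List.mem_cons_of_mem _ hf) g (List.mem_cons_of_mem _ hg),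
        fun f hf => h.res f (List.mem_cons_of_mem _ hf),
        fun f hf => h.small f (List.mem_cons_of_mem _ hf)⟩
    have ih := ih h'
    have hmem : A.next (sym A q K t).2 ∈ (sym A q K (t + 1)).1 := List.mem_cons_self
    simp only [RingAlgorithm.run, sym, ih, List.map_cons, Prod.mk.injEq, List.cons.injEq, true_and,
      and_true]
    set f := A.next (sym A q K t).2 with hf
    refine Prod.ext ?_ (Prod.ext ?_ ?_)
    · simp only [answer, symAnswer, List.map_map]
      refine List.map_congr_left fun g hg => ?_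
      simp only [Function.comp_apply]
      have h3 := h.close g (List.mem_cons_of_mem _ hg) f hmem
      rw [← map_sub] at h3 ⊢
      exact ite_eq K x (g - f) h3
    · exact h.res f hmem
    · simp only [answer, symAnswer]
      exact ite_eq K x f (h.small f hmem)

theorem sym_length (A : RingAlgorithm σ d) (q K : ℤ) (t : ℕ) : (sym A q K t).1.length = t := by
  induction t with
  | zero => rfl
  | succ t ih => simp [sym, ih]

theorem sym_degree (A : RingAlgorithm σ d) (q K : ℤ) (t : ℕ) :
    ∀ f ∈ (sym A q K t).1, f.totalDegree ≤ d := by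
  induction t with
  | zero => simp [sym]
  | succ t ih =>
    intro f hf
    simp only [sym, List.mem_cons] at hf
    rcases hf with rfl | hf
    · exact A.degree_le _
    · exact ih f hf

theorem accepts_eq (A : RingAlgorithm σ d) (q K : ℤ) (x : σ → ℤ) (N : ℕ)
    (h : Faithful q K x (sym A q K N).1) :
    A.accepts q K N x = A.output (sym A q K N).2 := by
  rw [RingAlgorithm.accepts, run_eq A q K x N h]

/-- The method of Yao. -/
theorem exists_good {Ω β : Type} (p : PMF Ω) (I : Finset β) (E : β → Set Ω)
    (hE : ∀ i ∈ I, (2 / 3 : ENNReal) ≤ p.toOuterMeasure (E i)) :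
    ∃ ω, ∀ F : Finset β, (∀ i ∈ I, ω ∈ E i → i ∈ F) → 2 * I.card ≤ 3 * F.card := by
  classical
  by_contra hcon'
  push Not at hcon'
  have hcon : ∀ ω, 3 * (I.filter fun i => ω ∈ E i).card < 2 * I.card := by
    intro ω
    obtain ⟨F, hF, hlt⟩ := hcon' ω
    have h1 : I.filter (fun i => ω ∈ E i) ⊆ F := fun i hi =>
      hF i (Finset.mem_filter.1 hi).1 (Finset.mem_filter.1 hi).2
    have h2 := Finset.card_le_card h1
    omega
  have h1 : (2 / 3 : ENNReal) * I.card ≤
      ∑' ω, p ω * ((I.filter fun i => ω ∈ E i).card : ENNReal) := by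
    calc (2 / 3 : ENNReal) * I.card = ∑ _i ∈ I, (2 / 3 : ENNReal) := by
          rw [Finset.sum_const, nsmul_eq_mul, mul_comm]
      _ ≤ ∑ i ∈ I, p.toOuterMeasure (E i) := Finset.sum_le_sum hE
      _ = ∑ i ∈ I, ∑' ω, (E i).indicator p ω := by
          simp only [PMF.toOuterMeasure_apply]
      _ = ∑' ω, ∑ i ∈ I, (E i).indicator p ω := by
          rw [Summable.tsum_finsetSum (fun _ _ => ENNReal.summable)]
      _ = ∑' ω, p ω * ((I.filter fun i => ω ∈ E i).card : ENNReal) := by
          refine tsum_congr fun ω => ?_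
          rw [Finset.card_filter, Nat.cast_sum, Finset.mul_sum]
          refine Finset.sum_congr rfl fun i _ => ?_
          by_cases h : ω ∈ E i <;> simp [h]
  have h2 : ∑' ω, p ω * ((I.filter fun i => ω ∈ E i).card : ENNReal) * 3 + 1 ≤ 2 * I.card := by
    calc ∑' ω, p ω * ((I.filter fun i => ω ∈ E i).card : ENNReal) * 3 + 1
        = ∑' ω, p ω * ((I.filter fun i => ω ∈ E i).card : ENNReal) * 3 + ∑' ω, p ω := by
          rw [p.tsum_coe]
      _ = ∑' ω, (p ω * ((I.filter fun i => ω ∈ E i).card : ENNReal) * 3 + p ω) := by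
          rw [ENNReal.tsum_add]
      _ ≤ ∑' ω, p ω * (2 * I.card) := by
          refine ENNReal.tsum_le_tsum fun ω => ?_
          have h3 : ((I.filter fun i => ω ∈ E i).card : ENNReal) * 3 + 1 ≤ 2 * I.card := by
            have := hcon ω
            have h4 : (I.filter fun i => ω ∈ E i).card * 3 + 1 ≤ 2 * I.card := by omega
            exact_mod_cast h4
          calc p ω * ((I.filter fun i => ω ∈ E i).card : ENNReal) * 3 + p ω
              = p ω * (((I.filter fun i => ω ∈ E i).card : ENNReal) * 3 + 1) := by ring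
            _ ≤ p ω * (2 * I.card) := by gcongr
      _ = 2 * I.card := by rw [ENNReal.tsum_mul_right, p.tsum_coe, one_mul]
  rw [ENNReal.tsum_mul_right] at h2
  have h3 : (2 : ENNReal) * I.card + 1 ≤ 2 * I.card := by
    calc (2 : ENNReal) * I.card + 1 = (2 / 3 : ENNReal) * I.card * 3 + 1 := by
          congr 1
          rw [mul_right_comm, ENNReal.div_mul_cancel (by norm_num) (by norm_num)]
      _ ≤ _ := by gcongr
      _ ≤ _ := h2
  have h4 : (2 : ENNReal) * I.card < 2 * I.card + 1 := by
    have : (2 * I.card : ℕ) < 2 * I.card + 1 := Nat.lt_succ_self _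
    exact_mod_cast this
  exact absurd h3 (not_le.2 h4)

end Pool.Agent.W962.Generic
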