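import Mathlib
import Pool.Agent.W962.Generic.Core

/-!
# From randomised algorithms to sets of polynomials
-/

set_option autoImplicit false

namespace Pool.Agent.W962.Generic

open MvPolynomial

variable {σ : Type} {d : ℕ}

/-- The algorithm on the inputs whose numbers are given by the polynomials `c`. -/
noncomputable def RingAlgorithm.comap {τ : Type} (A : RingAlgorithm τ d) (c : τ → MvPolynomial σ ℤ)
    (hc : ∀ t, (c t).totalDegree ≤ 1) : RingAlgorithm σ d where
  next h := aeval c (A.next h)
  degree_le h := (totalDegree_aeval_le c hc _).trans (A.degree_le h)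
  output := A.output

theorem eval_aeval {τ : Type} (c : τ → MvPolynomial σ ℤ) (x : σ → ℤ) (f : MvPolynomial τ ℤ) :
    eval x (aeval c f) = eval (fun t => eval x (c t)) f := by
  induction f using MvPolynomial.induction_on with
  | C a => simp
  | add p q hp hq => rw [map_add, map_add, map_add, hp, hq]
  | mul_X p n hp => rw [map_mul, map_mul, map_mul, hp, aeval_X, eval_X]

theorem comap_accepts {τ : Type} (A : RingAlgorithm τ d) (c : τ → MvPolynomial σ ℤ)
    (hc : ∀ t, (c t).totalDegree ≤ 1) (q K : ℤ) (N : ℕ) (x : σ → ℤ) :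
    (A.comap c hc).accepts q K N x = A.accepts q K N (fun t => eval x (c t)) := by
  have h : ∀ t, (A.comap c hc).run q K x t = A.run q K (fun t => eval x (c t)) t := by
    intro t
    induction t with
    | zero => rfl
    | succ t ih =>
      simp only [RingAlgorithm.run, ih]
      simp only [RingAlgorithm.comap, eval_aeval]
  simp only [RingAlgorithm.accepts, h]
  rfl

theorem eval_mod (q : ℤ) (x : σ → ℤ) (hx : ∀ i, q ∣ x i) (f : MvPolynomial σ ℤ) :
    eval x f % q = eval 0 f % q := by
  have h : q ∣ eval x f - eval 0 f := by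
    induction f using MvPolynomial.induction_on with
    | C a => simp
    | add p r hp hr =>
      have : eval x (p + r) - eval 0 (p + r) =
        (eval x p - eval 0 p) + (eval x r - eval 0 r) := by simp; ring
      rw [this]
      exact dvd_add hp hr
    | mul_X p n hp =>
      simp only [map_mul, eval_X, Pi.zero_apply, mul_zero, sub_zero]
      exact Dvd.dvd.mul_left (hx n) _
  exact (Int.modEq_iff_dvd.2 h).symm

/-- The substitution which makes the linear form `X v + ρ` vanish. -/
noncomputable def sub [DecidableEq σ] (v : σ) (ρ : MvPolynomial σ ℤ) (i : σ) : MvPolynomial σ ℤ :=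
  if i = v then -ρ else X i

/-- The input `x` with the number `x v` changed to `-ρ x`. -/
noncomputable def plant [DecidableEq σ] (v : σ) (ρ : MvPolynomial σ ℤ) (x : σ → ℤ) : σ → ℤ :=
  Function.update x v (-eval x ρ)

theorem eval_sub [DecidableEq σ] (v : σ) (ρ : MvPolynomial σ ℤ) (x : σ → ℤ)
    (p : MvPolynomial σ ℤ) : eval x (aeval (sub v ρ) p) = eval (plant v ρ x) p := by
  rw [eval_aeval]
  congr 2
  funext i
  by_cases h : i = v
  · subst h; simp [sub, plant]
  · simp [sub, plant, h]

theorem dvd_sub_sub [DecidableEq σ] (v : σ) (ρ : MvPolynomial σ ℤ) (p : MvPolynomial σ ℤ) :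
    X v + ρ ∣ p - aeval (sub v ρ) p := by
  refine dvd_sub_aeval _ _ (fun i => ?_) p
  by_cases h : i = v
  · subst h; simp [sub]
  · simp [sub, h]

theorem count_plant [Fintype σ] [DecidableEq σ] (v : σ) (ρ : MvPolynomial σ ℤ)
    (hρ : ρ.totalDegree ≤ 1) (S : Finset ℤ) (p : MvPolynomial σ ℤ) (hp : p.totalDegree ≤ d)
    (hdvd : ¬ (X v + ρ ∣ p)) :
    S.card * ((Fintype.piFinset fun _ : σ => S).filter fun x => eval (plant v ρ x) p = 0).card ≤
      d * (Fintype.piFinset fun _ : σ => S).card := by
  have h0 : aeval (sub v ρ) p ≠ 0 := by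
    intro h
    have := dvd_sub_sub v ρ p
    rw [h, sub_zero] at this
    exact hdvd this
  have h1 : (aeval (sub v ρ) p).totalDegree ≤ d := by
    refine (totalDegree_aeval_le _ (fun i => ?_) p).trans hp
    by_cases h : i = v
    · subst h
      simp only [sub, if_true]
      rwa [totalDegree_neg]
    · simp [sub, h]
  simpa only [eval_sub] using schwartz_zippel _ h0 d h1 S

end Pool.Agent.W962.Generic
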