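import Mathlib
import Pool.Agent.W962.Generic.Reduce

/-!
# From randomised algorithms to sets of polynomials
-/

set_option autoImplicit false

namespace Pool.Agent.W962.Generic

open MvPolynomial

variable {σ : Type} {d : ℕ}

open Classical in
/-- The differences which must not vanish. -/
noncomputable def diffs (K : ℕ) (W : Finset (MvPolynomial σ ℤ)) : Finset (MvPolynomial σ ℤ) :=
  (((insert 0 W ×ˢ insert 0 W) ×ˢ Finset.Icc (-(K : ℤ)) K).filter
    fun z => z.1.1 - z.1.2 ≠ C z.2).image fun z => z.1.1 - z.1.2 - C z.2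

open Classical in
/-- The polynomials without their constant terms. -/
noncomputable def normal (W : Finset (MvPolynomial σ ℤ)) : Finset (MvPolynomial σ ℤ) :=
  (insert 0 W).image fun f => f - C (eval 0 f)

open Classical in
/-- The set of the members of a list. -/
noncomputable def lf (L : List (MvPolynomial σ ℤ)) : Finset (MvPolynomial σ ℤ) := L.toFinset

theorem mem_lf (L : List (MvPolynomial σ ℤ)) (f : MvPolynomial σ ℤ) : f ∈ lf L ↔ f ∈ L := by
  classical
  exact List.mem_toFinset

theorem lf_card (L : List (MvPolynomial σ ℤ)) : (lf L).card ≤ L.length := by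
  classical
  exact List.toFinset_card_le _

theorem diffs_card (K : ℕ) (W : Finset (MvPolynomial σ ℤ)) :
    (diffs K W).card ≤ (W.card + 1) * (W.card + 1) * (2 * K + 1) := by
  classical
  refine Finset.card_image_le.trans ((Finset.card_filter_le _ _).trans ?_)
  rw [Finset.card_product, Finset.card_product, Int.card_Icc]
  refine Nat.mul_le_mul (Nat.mul_le_mul ?_ ?_) ?_
  · exact Finset.card_insert_le _ _
  · exact Finset.card_insert_le _ _
  · omega

theorem diffs_degree (K : ℕ) (W : Finset (MvPolynomial σ ℤ)) (hd : ∀ f ∈ W, f.totalDegree ≤ d) :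
    ∀ p ∈ diffs K W, p.totalDegree ≤ d := by
  classical
  intro p hp
  have hd' : ∀ f ∈ insert 0 W, f.totalDegree ≤ d := by
    intro f hf
    rcases Finset.mem_insert.1 hf with rfl | hf
    · simp
    · exact hd f hf
  obtain ⟨z, hz, rfl⟩ := Finset.mem_image.1 hp
  have hz := Finset.mem_product.1 (Finset.mem_product.1 (Finset.mem_filter.1 hz).1).1
  refine (totalDegree_sub _ _).trans (max_le ?_ ?_)
  · exact (totalDegree_sub _ _).trans (max_le (hd' _ hz.1) (hd' _ hz.2))
  · rw [totalDegree_C]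
    exact Nat.zero_le _

theorem diffs_ne_zero (K : ℕ) (W : Finset (MvPolynomial σ ℤ)) : ∀ p ∈ diffs K W, p ≠ 0 := by
  classical
  intro p hp
  obtain ⟨z, hz, rfl⟩ := Finset.mem_image.1 hp
  exact sub_ne_zero.2 (Finset.mem_filter.1 hz).2

theorem normal_card (W : Finset (MvPolynomial σ ℤ)) : (normal W).card ≤ W.card + 1 := by
  classical
  exact Finset.card_image_le.trans (Finset.card_insert_le _ _)

theorem normal_degree (W : Finset (MvPolynomial σ ℤ)) (hd : ∀ f ∈ W, f.totalDegree ≤ d) :
    ∀ f ∈ normal W, f.totalDegree ≤ d := by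
  classical
  intro f hf
  obtain ⟨g, hg, rfl⟩ := Finset.mem_image.1 hf
  refine (totalDegree_sub _ _).trans (max_le ?_ ?_)
  · rcases Finset.mem_insert.1 hg with rfl | hg
    · simp
    · exact hd g hg
  · rw [totalDegree_C]
    exact Nat.zero_le _

/-- An input at which no difference vanishes is typical. -/
theorem faithful_of (q : ℤ) (K : ℕ) (x : σ → ℤ) (hx : ∀ i, q ∣ x i)
    (L : List (MvPolynomial σ ℤ))
    (h : ∀ p ∈ diffs K (lf L), eval x p ≠ 0) : Faithful q K x L := by
  classical
  have key : ∀ f ∈ insert 0 (lf L), ∀ g ∈ insert 0 (lf L), |eval x f - eval x g| ≤ K →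
      f - g = C (eval 0 (f - g)) := by
    intro f hf g hg hs
    by_contra hne
    refine h (f - g - C (eval x f - eval x g))
      (Finset.mem_image.2 ⟨((f, g), eval x f - eval x g), ?_, rfl⟩) ?_
    · refine Finset.mem_filter.2 ⟨Finset.mem_product.2
        ⟨Finset.mem_product.2 ⟨hf, hg⟩, Finset.mem_Icc.2 (abs_le.1 hs)⟩, fun heq => hne ?_⟩
      have heq' : f - g = C (eval x f - eval x g) := heq
      have h1 : eval 0 (f - g) = eval x f - eval x g := by
        calc eval 0 (f - g) = eval 0 (C (eval x f - eval x g)) := congrArg _ heq'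
          _ = eval x f - eval x g := eval_C _
      rw [h1]
      exact heq'
    · simp
  refine ⟨fun f hf g hg hfg => ?_, fun f _ => eval_mod q x hx f, fun f hf hs => ?_⟩
  · exact key f (Finset.mem_insert_of_mem ((mem_lf L f).2 hf)) g
      (Finset.mem_insert_of_mem ((mem_lf L g).2 hg)) hfg
  · have := key f (Finset.mem_insert_of_mem ((mem_lf L f).2 hf)) 0
      (Finset.mem_insert_self _ _) (by simpa using hs)
    simpa using this

/-- If `χ` divides one of the differences then it divides the difference of two different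
elements of `normal W`. -/
theorem covered_of_dvd (K : ℕ) (W : Finset (MvPolynomial σ ℤ)) (χ : MvPolynomial σ ℤ)
    (hχ : eval 0 χ = 0) (p : MvPolynomial σ ℤ) (hp : p ∈ diffs K W) (hdvd : χ ∣ p) :
    ∃ f ∈ normal W, ∃ g ∈ normal W, f ≠ g ∧ χ ∣ f - g := by
  classical
  obtain ⟨z, hz, rfl⟩ := Finset.mem_image.1 hp
  obtain ⟨hz1, hz2⟩ := Finset.mem_filter.1 hz
  have hz1 := Finset.mem_product.1 (Finset.mem_product.1 hz1).1
  have h1 : eval 0 z.1.1 - eval 0 z.1.2 = z.2 := by
    obtain ⟨r, hr⟩ := hdvd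
    have := congrArg (eval 0) hr
    rw [map_mul, hχ, zero_mul, map_sub, map_sub, eval_C, sub_eq_zero] at this
    exact this
  have h2 : (z.1.1 - C (eval 0 z.1.1)) - (z.1.2 - C (eval 0 z.1.2)) = z.1.1 - z.1.2 - C z.2 := by
    rw [← h1, C_sub]
    ring
  refine ⟨_, Finset.mem_image.2 ⟨z.1.1, hz1.1, rfl⟩, _, Finset.mem_image.2 ⟨z.1.2, hz1.2, rfl⟩,
    ?_, ?_⟩
  · rw [← sub_ne_zero, h2]
    exact sub_ne_zero.2 hz2
  · rw [h2]
    exact hdvd

theorem both_bad [DecidableEq σ] (A : RingAlgorithm σ d) (q : ℤ) (K N : ℕ) (x : σ → ℤ)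
    (hxq : ∀ i, q ∣ x i) (v : σ) (ρ : MvPolynomial σ ℤ) (hρ0 : eval 0 ρ = 0)
    (P : (σ → ℤ) → Prop) (h1 : A.accepts q K N x = true ↔ P x)
    (h2 : A.accepts q K N (plant v ρ x) = true ↔ P (plant v ρ x)) (hP : P (plant v ρ x)) :
    (∃ r ∈ diffs K (lf (sym A q K N).1), eval x r = 0) ∨ P x ∨
      ∃ r ∈ diffs K (lf (sym A q K N).1), eval (plant v ρ x) r = 0 := by
  by_cases c1 : ∃ r ∈ diffs K (lf (sym A q K N).1), eval x r = 0
  · left; exact c1
  by_cases c2 : P x
  · right; left; exact c2
  right; right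
  by_contra c3
  have f1 : Faithful q K x (sym A q K N).1 := by
    exact faithful_of q K x hxq _ fun r hr h0 => c1 ⟨r, hr, h0⟩
  have f2 : Faithful q K (plant v ρ x) (sym A q K N).1 := by
    refine faithful_of q K _ ?_ _ fun r hr h0 => c3 ⟨r, hr, h0⟩
    · intro i
      by_cases hi : i = v
      · subst hi
        simp only [plant, Function.update_self]
        rw [dvd_neg]
        have := eval_mod q x hxq ρ
        rw [hρ0, Int.zero_emod] at this
        exact Int.dvd_of_emod_eq_zero this
      · simp only [plant, Function.update_of_ne hi]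
        exact hxq i
  rw [accepts_eq _ _ _ _ _ f1] at h1
  rw [accepts_eq _ _ _ _ _ f2] at h2
  exact c2 (h1.1 (h2.2 hP))

variable [Fintype σ] [DecidableEq σ] {Λ : Type} [Fintype Λ]

/-- **Main reduction.** -/
theorem main {Ω : Type} (p : PMF Ω) (A : Ω → RingAlgorithm σ d) (q : ℤ) (K N : ℕ)
    (S : Finset ℤ) (hSq : ∀ s ∈ S, q ∣ s) (v : Λ → σ) (ρ : Λ → MvPolynomial σ ℤ)
    (hρ1 : ∀ T, (ρ T).totalDegree ≤ 1) (hρ0 : ∀ T, eval 0 (ρ T) = 0)
    (P : (σ → ℤ) → Prop)
    (hP : ∀ x ∈ Fintype.piFinset (fun _ : σ => S), ∀ T, P (plant (v T) (ρ T) x))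
    (e : ℕ) (hPe : ∀ F : Finset (σ → ℤ), (∀ x ∈ F, x ∈ Fintype.piFinset (fun _ : σ => S) ∧ P x) →
      S.card * F.card ≤ e * (Fintype.piFinset (fun _ : σ => S)).card) (he : 12 * e ≤ S.card)
    (hS : 24 * ((N + 1) * (N + 1) * (2 * K + 1) * d) ≤ S.card) (hSpos : 0 < S.card)
    (h1 : ∀ x ∈ Fintype.piFinset (fun _ : σ => S),
      (2 / 3 : ENNReal) ≤ p.toOuterMeasure {ω | (A ω).accepts q K N x = true ↔ P x})
    (h2 : ∀ x ∈ Fintype.piFinset (fun _ : σ => S), ∀ T,
      (2 / 3 : ENNReal) ≤ p.toOuterMeasure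
        {ω | (A ω).accepts q K N (plant (v T) (ρ T) x) = true ↔ P (plant (v T) (ρ T) x)}) :
    ∃ W : Finset (MvPolynomial σ ℤ), W.card ≤ N + 1 ∧ (∀ f ∈ W, f.totalDegree ≤ d) ∧
      ∃ C : Finset Λ, Fintype.card Λ ≤ 6 * C.card ∧
        ∀ T ∈ C, ∃ f ∈ W, ∃ g ∈ W, f ≠ g ∧ X (v T) + ρ T ∣ f - g := by
  classical
  set cube := Fintype.piFinset (fun _ : σ => S) with hcube
  have hcubepos : 0 < cube.card := by
    rw [hcube, Fintype.card_piFinset, Finset.prod_const]
    exact pow_pos hSpos _
  -- Yao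
  let I : Finset (((σ → ℤ) × Λ) × Bool) := (cube ×ˢ Finset.univ) ×ˢ Finset.univ
  let y : ((σ → ℤ) × Λ) × Bool → (σ → ℤ) := fun i =>
    if i.2 then plant (v i.1.2) (ρ i.1.2) i.1.1 else i.1.1
  obtain ⟨ω, hω⟩ := exists_good p I
    (fun i => {ω | (A ω).accepts q K N (y i) = true ↔ P (y i)}) (by
      rintro ⟨⟨x, T⟩, b⟩ hi
      have hx : x ∈ cube := (Finset.mem_product.1 (Finset.mem_product.1 hi).1).1
      cases b
      · exact h1 x hx
      · exact h2 x hx T)
  set L := (sym (A ω) q K N).1 with hL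
  set W₀ := lf L with hW₀
  have hW₀card : W₀.card ≤ N := by
    refine (lf_card _).trans ?_
    rw [hL, sym_length]
  have hW₀deg : ∀ f ∈ W₀, f.totalDegree ≤ d := fun f hf =>
    sym_degree (A ω) q K N f ((mem_lf L f).1 hf)
  have hD : (diffs K W₀).card ≤ (N + 1) * (N + 1) * (2 * K + 1) := by
    refine (diffs_card K W₀).trans ?_
    gcongr
  refine ⟨normal W₀, (normal_card W₀).trans (by omega), normal_degree W₀ hW₀deg,
    Finset.univ.filter fun T : Λ => ∃ f ∈ normal W₀, ∃ g ∈ normal W₀,
      f ≠ g ∧ X (v T) + ρ T ∣ f - g, ?_, fun T hT => (Finset.mem_filter.1 hT).2⟩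
  set Cov := Finset.univ.filter fun T : Λ =>
    ∃ f ∈ normal W₀, ∃ g ∈ normal W₀, f ≠ g ∧ X (v T) + ρ T ∣ f - g with hCov
  -- the bad pairs
  set bad1 := cube.filter fun x => ∃ r ∈ diffs K W₀, eval x r = 0 with hbad1
  set bad2 : Λ → Finset (σ → ℤ) := fun T =>
    cube.filter fun x => ∃ r ∈ diffs K W₀, eval (plant (v T) (ρ T) x) r = 0 with hbad2
  have hb1 : S.card * bad1.card ≤ ((N + 1) * (N + 1) * (2 * K + 1)) * d * cube.card := by
    have hsub : bad1 ⊆ (diffs K W₀).biUnion fun r => cube.filter fun x => eval x r = 0 := by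
      intro x hx
      obtain ⟨hx1, r, hr, hxr⟩ := Finset.mem_filter.1 hx
      exact Finset.mem_biUnion.2 ⟨r, hr, Finset.mem_filter.2 ⟨hx1, hxr⟩⟩
    calc S.card * bad1.card ≤ S.card * ∑ r ∈ diffs K W₀, (cube.filter fun x => eval x r = 0).card :=
          Nat.mul_le_mul_left _ ((Finset.card_le_card hsub).trans Finset.card_biUnion_le)
      _ = ∑ r ∈ diffs K W₀, S.card * (cube.filter fun x => eval x r = 0).card := by
          rw [Finset.mul_sum]
      _ ≤ ∑ r ∈ diffs K W₀, d * cube.card := by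
          refine Finset.sum_le_sum fun r hr => ?_
          exact schwartz_zippel r (diffs_ne_zero K W₀ r hr) d (diffs_degree K W₀ hW₀deg r hr) S
      _ = (diffs K W₀).card * (d * cube.card) := by rw [Finset.sum_const, smul_eq_mul]
      _ ≤ ((N + 1) * (N + 1) * (2 * K + 1)) * (d * cube.card) := Nat.mul_le_mul_right _ hD
      _ = _ := by ring
  have hχ0 : ∀ T, eval (0 : σ → ℤ) (X (v T) + ρ T) = 0 := fun T => by
    rw [map_add, hρ0 T, eval_X, add_zero, Pi.zero_apply]
  have hb2 : ∀ T, T ∉ Cov →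
      S.card * (bad2 T).card ≤ ((N + 1) * (N + 1) * (2 * K + 1)) * d * cube.card := by
    intro T hT
    have hsub : bad2 T ⊆ (diffs K W₀).biUnion fun r =>
        cube.filter fun x => eval (plant (v T) (ρ T) x) r = 0 := by
      intro x hx
      obtain ⟨hx1, r, hr, hxr⟩ := Finset.mem_filter.1 hx
      exact Finset.mem_biUnion.2 ⟨r, hr, Finset.mem_filter.2 ⟨hx1, hxr⟩⟩
    calc S.card * (bad2 T).card
        ≤ S.card * ∑ r ∈ diffs K W₀, (cube.filter fun x => eval (plant (v T) (ρ T) x) r = 0).card :=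
          Nat.mul_le_mul_left _ ((Finset.card_le_card hsub).trans Finset.card_biUnion_le)
      _ = ∑ r ∈ diffs K W₀, S.card *
          (cube.filter fun x => eval (plant (v T) (ρ T) x) r = 0).card := by
          rw [Finset.mul_sum]
      _ ≤ ∑ r ∈ diffs K W₀, d * cube.card := by
          refine Finset.sum_le_sum fun r hr => ?_
          refine count_plant (v T) (ρ T) (hρ1 T) S r (diffs_degree K W₀ hW₀deg r hr) fun hdvd => ?_
          exact hT (Finset.mem_filter.2 ⟨Finset.mem_univ _,
            covered_of_dvd K W₀ _ (hχ0 T) r hr hdvd⟩)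
      _ = (diffs K W₀).card * (d * cube.card) := by rw [Finset.sum_const, smul_eq_mul]
      _ ≤ ((N + 1) * (N + 1) * (2 * K + 1)) * (d * cube.card) := Nat.mul_le_mul_right _ hD
      _ = _ := by ring
  -- both correct implies bad
  set both := (cube ×ˢ (Finset.univ : Finset Λ)).filter fun z =>
    ((A ω).accepts q K N z.1 = true ↔ P z.1) ∧
      ((A ω).accepts q K N (plant (v z.2) (ρ z.2) z.1) = true ↔ P (plant (v z.2) (ρ z.2) z.1))
    with hboth
  have hcorrect : (I.filter fun i => ω ∈ {ω | (A ω).accepts q K N (y i) = true ↔ P (y i)}).card ≤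
      cube.card * Fintype.card Λ + both.card := by
    have e1 : (I.filter fun i => ω ∈ {ω | (A ω).accepts q K N (y i) = true ↔ P (y i)}).card =
        ∑ z ∈ cube ×ˢ (Finset.univ : Finset Λ),
          ((if ((A ω).accepts q K N z.1 = true ↔ P z.1) then 1 else 0) +
          (if ((A ω).accepts q K N (plant (v z.2) (ρ z.2) z.1) = true ↔
            P (plant (v z.2) (ρ z.2) z.1)) then 1 else 0)) := by
      rw [Finset.card_filter, Finset.sum_product]
      refine Finset.sum_congr rfl fun z _ => ?_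
      rw [Fintype.sum_bool, add_comm]
      simp only [Set.mem_ofPred_eq, y]
      simp
    rw [e1, hboth, Finset.card_filter]
    have e2 : cube.card * Fintype.card Λ =
        ∑ z ∈ cube ×ˢ (Finset.univ : Finset Λ), 1 := by
      rw [Finset.sum_const, Finset.card_product, smul_eq_mul, mul_one, Finset.card_univ]
    rw [e2, ← Finset.sum_add_distrib]
    refine Finset.sum_le_sum fun z _ => ?_
    by_cases c1 : ((A ω).accepts q K N z.1 = true ↔ P z.1) <;>
    by_cases c2 : ((A ω).accepts q K N (plant (v z.2) (ρ z.2) z.1) = true ↔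
            P (plant (v z.2) (ρ z.2) z.1)) <;> simp [c1, c2]
  have hbothsub : both ⊆ ((bad1 ∪ cube.filter P) ×ˢ (Finset.univ : Finset Λ)) ∪ (cube ×ˢ Cov) ∪
      (Finset.univ.filter fun T => T ∉ Cov).biUnion fun T => bad2 T ×ˢ {T} := by
    intro z hz
    obtain ⟨hz1, hz2, hz3⟩ := Finset.mem_filter.1 hz
    have hx : z.1 ∈ cube := (Finset.mem_product.1 hz1).1
    by_cases hT : z.2 ∈ Cov
    · exact Finset.mem_union_left _ (Finset.mem_union_right _ (Finset.mem_product.2 ⟨hx, hT⟩))
    · rcases both_bad (A ω) q K N z.1 (fun i => hSq _ (Fintype.mem_piFinset.1 hx i)) (v z.2) (ρ z.2)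
        (hρ0 z.2) P hz2 hz3 (hP z.1 hx z.2) with hc | hc | hc
      · exact Finset.mem_union_left _ (Finset.mem_union_left _ (Finset.mem_product.2
          ⟨Finset.mem_union_left _ (Finset.mem_filter.2 ⟨hx, hc⟩), Finset.mem_univ _⟩))
      · exact Finset.mem_union_left _ (Finset.mem_union_left _ (Finset.mem_product.2
          ⟨Finset.mem_union_right _ (Finset.mem_filter.2 ⟨hx, hc⟩), Finset.mem_univ _⟩))
      · exact Finset.mem_union_right _ (Finset.mem_biUnion.2 ⟨z.2,
          Finset.mem_filter.2 ⟨Finset.mem_univ _, hT⟩, Finset.mem_product.2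
          ⟨Finset.mem_filter.2 ⟨hx, hc⟩, Finset.mem_singleton_self _⟩⟩)
  have hbothcard : both.card ≤ (bad1.card + (cube.filter P).card) * Fintype.card Λ +
      cube.card * Cov.card + ∑ T ∈ Finset.univ.filter (fun T => T ∉ Cov), (bad2 T).card := by
    refine (Finset.card_le_card hbothsub).trans ((Finset.card_union_le _ _).trans ?_)
    refine Nat.add_le_add ((Finset.card_union_le _ _).trans (Nat.add_le_add ?_ ?_)) ?_
    · rw [Finset.card_product, Finset.card_univ]
      exact Nat.mul_le_mul_right _ (Finset.card_union_le _ _)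
    · rw [Finset.card_product]
    · refine Finset.card_biUnion_le.trans (Finset.sum_le_sum fun T _ => ?_)
      rw [Finset.card_product, Finset.card_singleton, mul_one]
  have hsum : S.card * ∑ T ∈ Finset.univ.filter (fun T => T ∉ Cov), (bad2 T).card ≤
      Fintype.card Λ * (((N + 1) * (N + 1) * (2 * K + 1)) * d * cube.card) := by
    rw [Finset.mul_sum]
    refine (Finset.sum_le_sum fun T hT => hb2 T (Finset.mem_filter.1 hT).2).trans ?_
    rw [Finset.sum_const, smul_eq_mul]
    exact Nat.mul_le_mul_right _ ((Finset.card_filter_le _ _).trans (by rw [Finset.card_univ]))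
  have hIcard : I.card = 2 * (cube.card * Fintype.card Λ) := by
    simp only [I, Finset.card_product, Finset.card_univ, Fintype.card_bool]
    ring
  -- arithmetic
  have g1 : cube.card * Fintype.card Λ ≤ 3 * both.card := by
    have h5 := hω (I.filter fun i => ω ∈ {ω | (A ω).accepts q K N (y i) = true ↔ P (y i)})
      (fun i hi h => Finset.mem_filter.2 ⟨hi, h⟩)
    rw [hIcard] at h5
    omega
  have hPe' : S.card * (cube.filter P).card ≤ e * cube.card :=
    hPe _ fun x hx => Finset.mem_filter.1 hx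
  set D := ((N + 1) * (N + 1) * (2 * K + 1)) * d with hDdef
  have g2 : S.card * both.card ≤ Fintype.card Λ * (D * cube.card) +
      Fintype.card Λ * (e * cube.card) + S.card * (cube.card * Cov.card) +
      Fintype.card Λ * (D * cube.card) := by
    calc S.card * both.card ≤ S.card * ((bad1.card + (cube.filter P).card) * Fintype.card Λ +
      cube.card * Cov.card + ∑ T ∈ Finset.univ.filter (fun T => T ∉ Cov), (bad2 T).card) :=
          Nat.mul_le_mul_left _ hbothcard
      _ = Fintype.card Λ * (S.card * bad1.card) + Fintype.card Λ * (S.card * (cube.filter P).card) +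
          S.card * (cube.card * Cov.card) +
          S.card * ∑ T ∈ Finset.univ.filter (fun T => T ∉ Cov), (bad2 T).card := by ring
      _ ≤ _ := by
          gcongr
  by_contra hcon
  push Not at hcon
  have hΛpos : 0 < Fintype.card Λ := by omega
  have k1 : (S.card : ℤ) * cube.card * Fintype.card Λ ≤ 3 * (S.card * both.card) := by
    have : S.card * (cube.card * Fintype.card Λ) ≤ S.card * (3 * both.card) :=
      Nat.mul_le_mul_left _ g1
    have h' : (S.card : ℤ) * (cube.card * Fintype.card Λ) ≤ S.card * (3 * both.card) := by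
      exact_mod_cast this
    linarith
  have k2 : (S.card : ℤ) * both.card ≤ Fintype.card Λ * (D * cube.card) +
      Fintype.card Λ * (e * cube.card) + S.card * (cube.card * Cov.card) +
      Fintype.card Λ * (D * cube.card) := by exact_mod_cast g2
  have k3 : (24 : ℤ) * D ≤ S.card := by exact_mod_cast hS
  have k4 : (12 : ℤ) * e ≤ S.card := by exact_mod_cast he
  have k5 : (6 : ℤ) * Cov.card < Fintype.card Λ := by
    exact_mod_cast hcon
  have k6 : (0 : ℤ) < cube.card * Fintype.card Λ := by exact_mod_cast Nat.mul_pos hcubepos hΛpos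
  have k7 : (0 : ℤ) < S.card * cube.card := by exact_mod_cast Nat.mul_pos hSpos hcubepos
  have m3 := mul_le_mul_of_nonneg_right k3 k6.le
  have m4 := mul_le_mul_of_nonneg_right k4 k6.le
  have m5 := mul_lt_mul_of_pos_left k5 k7
  nlinarith

end Pool.Agent.W962.Generic
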