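import Mathlib

/-!
# Finite sets of polynomials in which every element has many neighbours
-/

set_option autoImplicit false

namespace Pool.Agent.W962.Generic

open MvPolynomial

variable {σ : Type*} {R : Type*} [CommRing R]

/-- The degree of a monomial in the variables of the block `B`. -/
noncomputable def bd (B : Finset σ) (m : σ →₀ ℕ) : ℕ :=
  open Classical in Finsupp.weight (fun s => if s ∈ B then 1 else 0) m

/-- `f` and `g` are different and `f - g` is divisible by `X b + r` for a polynomial `r` in which no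
variable of the block `B` occurs. -/
def Dir (B : Finset σ) (f g : MvPolynomial σ R) (b : σ) : Prop :=
  f ≠ g ∧ ∃ r : MvPolynomial σ R, (∀ s ∈ r.vars, s ∉ B) ∧ (X b + r) ∣ f - g

open Classical in
/-- The directions of `f` in `W` in the block `B`. -/
noncomputable def dirs (B : Finset σ) (W : Finset (MvPolynomial σ R)) (f : MvPolynomial σ R) :
    Finset σ :=
  B.filter (fun b => ∃ g ∈ W, Dir B f g b)

theorem bd_add (B : Finset σ) (m m' : σ →₀ ℕ) : bd B (m + m') = bd B m + bd B m' := by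
  simp [bd]

theorem bd_single (B : Finset σ) (b : σ) (hb : b ∈ B) : bd B (Finsupp.single b 1) = 1 := by
  simp [bd, Finsupp.weight_single, hb]

theorem bd_eq_zero (B : Finset σ) (m : σ →₀ ℕ) (h : ∀ s ∈ m.support, s ∉ B) : bd B m = 0 := by
  classical
  unfold bd
  rw [Finsupp.weight_apply]
  refine Finset.sum_eq_zero fun s hs => ?_
  simp [h s hs]

theorem bd_of_vars (B : Finset σ) (r : MvPolynomial σ R) (hr : ∀ s ∈ r.vars, s ∉ B)
    (m : σ →₀ ℕ) (hm : m ∈ r.support) : bd B m = 0 :=
  bd_eq_zero B m fun s hs => hr s ((mem_vars_iff_mem_support s).2 ⟨m, hm, hs⟩)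

/-- If all monomials of `q` have block degree at most `n`, then so do those of `r * q`, when `r`
does not contain variables of the block. -/
theorem coeff_mul_eq_zero (B : Finset σ) (r q : MvPolynomial σ R) (hr : ∀ s ∈ r.vars, s ∉ B)
    (n : ℕ) (hq : ∀ m ∈ q.support, bd B m ≤ n) (μ : σ →₀ ℕ) (hμ : n < bd B μ) :
    coeff μ (r * q) = 0 := by
  classical
  by_contra h
  have hs : μ ∈ (r * q).support := mem_support_iff.2 h
  obtain ⟨a, ha, b, hb, hab⟩ := Finset.mem_add.1 (support_mul r q hs)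
  have h1 := bd_of_vars B r hr a ha
  have h2 := hq b hb
  rw [← hab, bd_add, h1] at hμ
  omega

theorem coeff_eq_of_dir [IsDomain R] (B : Finset σ) (f g : MvPolynomial σ R) (b : σ) (hb : b ∈ B)
    (h : Dir B f g b) (μ : σ →₀ ℕ) (hbμ : b ∉ μ.support)
    (hmax : ∀ μ' : σ →₀ ℕ, bd B μ < bd B μ' → coeff μ' f = coeff μ' g) :
    coeff μ f = coeff μ g := by
  classical
  obtain ⟨hfg, r, hr, q, hq⟩ := h
  have hq0 : q ≠ 0 := by
    rintro rfl
    rw [mul_zero] at hq
    exact hfg (sub_eq_zero.1 hq)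
  obtain ⟨ν, hν, hνmax⟩ := Finset.exists_max_image q.support (bd B) (support_nonempty.2 hq0)
  have h1 : coeff (ν + Finsupp.single b 1) (f - g) = coeff ν q := by
    rw [hq, add_mul, coeff_add, mul_comm (X b) q, coeff_mul_X,
      coeff_mul_eq_zero B r q hr (bd B ν) hνmax _ (by rw [bd_add, bd_single B b hb]; omega),
      add_zero]
  have h2 : bd B ν < bd B μ := by
    by_contra hlt
    have h3 := hmax (ν + Finsupp.single b 1) (by rw [bd_add, bd_single B b hb]; omega)
    rw [coeff_sub, h3, sub_self] at h1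
    exact (mem_support_iff.1 hν) h1.symm
  have h3 : coeff μ (f - g) = 0 := by
    rw [hq, add_mul, coeff_add, mul_comm (X b) q, coeff_mul_X',
      coeff_mul_eq_zero B r q hr (bd B ν) hνmax _ h2, if_neg hbμ, add_zero]
  rw [coeff_sub] at h3
  exact sub_eq_zero.1 h3

theorem card_support_le (μ : σ →₀ ℕ) (f : MvPolynomial σ R) (hμ : μ ∈ f.support) (d : ℕ)
    (hd : f.totalDegree ≤ d) : μ.support.card ≤ d := by
  have h1 := le_totalDegree hμ
  refine le_trans ?_ (h1.trans hd)
  rw [Finsupp.sum, Finset.card_eq_sum_ones]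
  exact Finset.sum_le_sum fun s hs => Nat.one_le_iff_ne_zero.2 (Finsupp.mem_support_iff.1 hs)

/-- **Isoperimetric lemma.** -/
theorem iso [IsDomain R] (B : Finset σ) (d : ℕ) : ∀ (k : ℕ) (W : Finset (MvPolynomial σ R)),
    W.Nonempty → (∀ f ∈ W, f.totalDegree ≤ d) → (∀ f ∈ W, d * k < (dirs B W f).card) →
    2 ^ (k + 1) ≤ W.card := by
  classical
  intro k
  induction k with
  | zero =>
    intro W hW hd h
    obtain ⟨f, hf⟩ := hW
    have h1 := h f hf
    rw [mul_zero] at h1
    obtain ⟨b, hb⟩ := Finset.card_pos.1 h1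
    obtain ⟨-, g, hg, hfg, -⟩ := Finset.mem_filter.1 hb
    have : 1 < W.card := Finset.one_lt_card.2 ⟨f, hf, g, hg, hfg⟩
    rw [zero_add, pow_one]
    exact this
  | succ k ih =>
    intro W hW hd h
    obtain ⟨f, hf⟩ := hW
    have h1 := lt_of_le_of_lt (Nat.zero_le _) (h f hf)
    obtain ⟨b, hb⟩ := Finset.card_pos.1 h1
    obtain ⟨-, g, hg, hfg, -⟩ := Finset.mem_filter.1 hb
    -- a monomial of maximal block degree whose coefficient is not constant
    let P : Finset (σ →₀ ℕ) :=
      (W.biUnion fun f => f.support).filter fun μ => ∃ f ∈ W, ∃ g ∈ W, coeff μ f ≠ coeff μ g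
    have hPmem : ∀ μ : σ →₀ ℕ, (∃ f ∈ W, ∃ g ∈ W, coeff μ f ≠ coeff μ g) → μ ∈ P := by
      rintro μ ⟨f, hf, g, hg, hne⟩
      refine Finset.mem_filter.2 ⟨Finset.mem_biUnion.2 ?_, f, hf, g, hg, hne⟩
      by_cases h0 : coeff μ f = 0
      · exact ⟨g, hg, mem_support_iff.2 fun h => hne (h0.trans h.symm)⟩
      · exact ⟨f, hf, mem_support_iff.2 h0⟩
    have hPne : P.Nonempty := by
      obtain ⟨μ, hμ⟩ : ∃ μ, coeff μ f ≠ coeff μ g := by
        by_contra hcon
        push Not at hcon
        exact hfg (MvPolynomial.ext _ _ hcon)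
      exact ⟨μ, hPmem μ ⟨f, hf, g, hg, hμ⟩⟩
    obtain ⟨μ, hμP, hμmax⟩ := Finset.exists_max_image P (bd B) hPne
    obtain ⟨hμ1, f0, hf0, g0, hg0, hne⟩ := Finset.mem_filter.1 hμP
    obtain ⟨f1, hf1, hf1μ⟩ := Finset.mem_biUnion.1 hμ1
    have hsupp : μ.support.card ≤ d := card_support_le μ f1 hf1μ d (hd f1 hf1)
    have hconst : ∀ μ' : σ →₀ ℕ, bd B μ < bd B μ' → ∀ f ∈ W, ∀ g ∈ W, coeff μ' f = coeff μ' g := by
      intro μ' hμ' f hf g hg
      by_contra hcon
      have := hμmax μ' (hPmem μ' ⟨f, hf, g, hg, hcon⟩)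
      omega
    have key : ∀ V : Finset (MvPolynomial σ R), V ⊆ W →
        (∀ f ∈ V, ∀ g ∈ W, coeff μ f = coeff μ g → g ∈ V) → V.Nonempty → 2 ^ (k + 1) ≤ V.card := by
      intro V hVW hV hVne
      refine ih V hVne (fun f hf => hd f (hVW hf)) fun f hf => ?_
      have hsub : dirs B W f \ μ.support ⊆ dirs B V f := by
        intro b hb
        obtain ⟨hb1, hb2⟩ := Finset.mem_sdiff.1 hb
        obtain ⟨hbB, g, hg, hdir⟩ := Finset.mem_filter.1 hb1
        refine Finset.mem_filter.2 ⟨hbB, g, hV f hf g hg ?_, hdir⟩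
        exact coeff_eq_of_dir B f g b hbB hdir μ hb2 fun μ' hμ' => hconst μ' hμ' f (hVW hf) g hg
      have h2 := Finset.card_le_card hsub
      have h3 := Finset.le_card_sdiff μ.support (dirs B W f)
      have h4 := h f (hVW hf)
      have h5 : d * (k + 1) = d * k + d := by ring
      omega
    have e1 := key (W.filter fun f => coeff μ f = coeff μ f0) (Finset.filter_subset _ _)
      (fun f hf g hg hfg => Finset.mem_filter.2 ⟨hg, hfg ▸ (Finset.mem_filter.1 hf).2⟩)
      ⟨f0, Finset.mem_filter.2 ⟨hf0, rfl⟩⟩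
    have e2 := key (W.filter fun f => ¬ coeff μ f = coeff μ f0) (Finset.filter_subset _ _)
      (fun f hf g hg hfg => Finset.mem_filter.2 ⟨hg, hfg ▸ (Finset.mem_filter.1 hf).2⟩)
      ⟨g0, Finset.mem_filter.2 ⟨hg0, fun h => hne h.symm⟩⟩
    have e3 := Finset.card_filter_add_card_filter_not (s := W) (fun f => coeff μ f = coeff μ f0)
    have e4 : 2 ^ (k + 1 + 1) = 2 ^ (k + 1) + 2 ^ (k + 1) := by ring
    omega

/-- **Peeling.** -/
theorem peel [IsDomain R] (B : Finset σ) (d k : ℕ) : ∀ (n : ℕ) (W : Finset (MvPolynomial σ R)),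
    W.card = n → W.card < 2 ^ (k + 1) → (∀ f ∈ W, f.totalDegree ≤ d) →
    ∃ r : MvPolynomial σ R → ℕ, Set.InjOn r W ∧
      ∀ f ∈ W, (open Classical in dirs B (W.filter fun g => r f ≤ r g) f).card ≤ d * k := by
  classical
  intro n
  induction n with
  | zero =>
    intro W hW _ _
    have : W = ∅ := Finset.card_eq_zero.1 hW
    subst this
    exact ⟨fun _ => 0, by simp, by simp⟩
  | succ n ih =>
    intro W hW hk hd
    have hne : W.Nonempty := Finset.card_pos.1 (by omega)
    obtain ⟨f0, hf0, hf0d⟩ : ∃ f ∈ W, (dirs B W f).card ≤ d * k := by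
      by_contra hcon
      push Not at hcon
      have := iso B d k W hne hd hcon
      omega
    have hcard : (W.erase f0).card = n := by rw [Finset.card_erase_of_mem hf0]; omega
    obtain ⟨r, hr, hrd⟩ := ih (W.erase f0) hcard (by omega)
      (fun f hf => hd f (Finset.mem_of_mem_erase hf))
    refine ⟨fun f => if f = f0 then 0 else r f + 1, ?_, ?_⟩
    · intro f hf g hg hfg
      simp only at hfg
      split_ifs at hfg with h1 h2 h2
      · rw [h1, h2]
      · refine hr ?_ ?_ (by omega)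
        · exact Finset.mem_coe.2 (Finset.mem_erase.2 ⟨h1, hf⟩)
        · exact Finset.mem_coe.2 (Finset.mem_erase.2 ⟨h2, hg⟩)
    · intro f hf
      by_cases h1 : f = f0
      · subst h1
        refine le_trans (Finset.card_le_card ?_) hf0d
        intro b hb
        obtain ⟨hb1, g, hg, hdir⟩ := Finset.mem_filter.1 hb
        exact Finset.mem_filter.2 ⟨hb1, g, (Finset.mem_filter.1 hg).1, hdir⟩
      · have h2 := hrd f (Finset.mem_erase.2 ⟨h1, hf⟩)
        refine le_trans (Finset.card_le_card ?_) h2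
        intro b hb
        obtain ⟨hb1, g, hg, hdir⟩ := Finset.mem_filter.1 hb
        refine Finset.mem_filter.2 ⟨hb1, g, ?_, hdir⟩
        obtain ⟨hgW, hle⟩ := Finset.mem_filter.1 hg
        simp only [if_neg h1] at hle
        by_cases h3 : g = f0
        · rw [if_pos h3] at hle
          omega
        · rw [if_neg h3] at hle
          exact Finset.mem_filter.2 ⟨Finset.mem_erase.2 ⟨h3, hgW⟩, by omega⟩

end Pool.Agent.W962.Generic
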