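import Mathlib
import Pool.Agent.W962.Generic.Iso

/-!
# How many linear forms can divide differences of few polynomials of small degree
-/

set_option autoImplicit false

namespace Pool.Agent.W962.Generic

open MvPolynomial

variable {σ : Type*} {R : Type*} [CommRing R]

theorem Dir.symm {B : Finset σ} {f g : MvPolynomial σ R} {b : σ} (h : Dir B f g b) :
    Dir B g f b := by
  obtain ⟨h1, r, h2, h3⟩ := h
  refine ⟨h1.symm, r, h2, ?_⟩
  rw [← neg_sub]
  exact (dvd_neg).2 h3

/-- The labels `T` in `C` for which some two different elements `f, g` of `W` are such that the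
difference is divisible, for every block `B i`, by a polynomial in which `dir i T` is the only
variable of the block, and this variable occurs linearly.  The number of the labels is bounded. -/
theorem cover_bound [IsDomain R] {ι Λ : Type*} [Fintype ι] [DecidableEq ι]
    (B : ι → Finset σ) (dir : ι → Λ → σ) (hdir : ∀ i T, dir i T ∈ B i) (d k : ℕ)
    (W : Finset (MvPolynomial σ R)) (hk : W.card < 2 ^ (k + 1))
    (hd : ∀ f ∈ W, f.totalDegree ≤ d) (C : Finset Λ)
    (hC : ∀ T ∈ C, ∃ f ∈ W, ∃ g ∈ W, ∀ i, Dir (B i) f g (dir i T))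
    (𝒮 : Finset (Finset ι)) (h𝒮 : ∀ S : Finset ι, ∃ S' ∈ 𝒮, S' ⊆ S ∨ S' ⊆ Sᶜ)
    (M : Finset ι → ℕ)
    (hM : ∀ S ∈ 𝒮, ∀ T₀ ∈ C, ∀ F : Finset Λ,
      (∀ T ∈ F, T ∈ C ∧ ∀ i ∈ S, dir i T = dir i T₀) → F.card ≤ M S) :
    C.card ≤ W.card * ∑ S ∈ 𝒮, M S * (d * k) ^ S.card := by
  classical
  choose r hr using fun i => peel (B i) d k W.card W rfl hk hd
  let A : ι → MvPolynomial σ R → Finset σ := fun i h =>
    dirs (B i) (W.filter fun g => r i h ≤ r i g) h
  have hA : ∀ i, ∀ h ∈ W, (A i h).card ≤ d * k := fun i h hh => (hr i).2 h hh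
  have hsub : C ⊆ 𝒮.biUnion fun S => W.biUnion fun h =>
      C.filter fun T => ∀ i ∈ S, dir i T ∈ A i h := by
    intro T hT
    obtain ⟨f, hf, g, hg, hfg⟩ := hC T hT
    obtain ⟨S', hS', hor⟩ := h𝒮 (Finset.univ.filter fun i => r i f ≤ r i g)
    refine Finset.mem_biUnion.2 ⟨S', hS', ?_⟩
    rcases hor with hor | hor
    · refine Finset.mem_biUnion.2 ⟨f, hf, Finset.mem_filter.2 ⟨hT, fun i hi => ?_⟩⟩
      have h1 := (Finset.mem_filter.1 (hor hi)).2
      exact Finset.mem_filter.2 ⟨hdir i T, g, Finset.mem_filter.2 ⟨hg, h1⟩, hfg i⟩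
    · refine Finset.mem_biUnion.2 ⟨g, hg, Finset.mem_filter.2 ⟨hT, fun i hi => ?_⟩⟩
      have h1 := hor hi
      simp only [Finset.mem_compl, Finset.mem_filter, Finset.mem_univ, true_and, not_le] at h1
      exact Finset.mem_filter.2 ⟨hdir i T, f, Finset.mem_filter.2 ⟨hf, h1.le⟩, (hfg i).symm⟩
  have hone : ∀ S ∈ 𝒮, ∀ h ∈ W,
      (C.filter fun T => ∀ i ∈ S, dir i T ∈ A i h).card ≤ M S * (d * k) ^ S.card := by
    intro S hS h hh
    have h1 : (Fintype.piFinset fun i : S => A i h).card ≤ (d * k) ^ S.card := by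
      rw [Fintype.card_piFinset]
      refine le_trans (Finset.prod_le_prod (fun _ _ => Nat.zero_le _)
        (fun i _ => hA i.1 h hh)) ?_
      rw [Finset.prod_const, Finset.card_univ, Fintype.card_coe]
    refine le_trans (Finset.card_le_mul_card_image_of_maps_to
      (f := fun T => fun i : S => dir i T) (t := Fintype.piFinset fun i : S => A i h) ?_ (M S) ?_)
      (Nat.mul_le_mul_left _ h1)
    · intro T hT
      exact Fintype.mem_piFinset.2 fun i => (Finset.mem_filter.1 hT).2 i.1 i.2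
    · intro v _
      rcases Finset.eq_empty_or_nonempty
        ((C.filter fun T => ∀ i ∈ S, dir i T ∈ A i h).filter fun T => (fun i : S => dir i T) = v)
        with he | ⟨T₀, hT₀⟩
      · rw [he]; simp
      · obtain ⟨h2, h3⟩ := Finset.mem_filter.1 hT₀
        refine hM S hS T₀ (Finset.mem_filter.1 h2).1 _ fun T hT => ?_
        obtain ⟨h4, h5⟩ := Finset.mem_filter.1 hT
        refine ⟨(Finset.mem_filter.1 h4).1, fun i hi => ?_⟩
        exact congrFun (h5.trans h3.symm) ⟨i, hi⟩
  calc C.card ≤ _ := Finset.card_le_card hsub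
    _ ≤ ∑ S ∈ 𝒮, ∑ h ∈ W, M S * (d * k) ^ S.card := by
        refine le_trans Finset.card_biUnion_le (Finset.sum_le_sum fun S hS => ?_)
        exact le_trans Finset.card_biUnion_le (Finset.sum_le_sum fun h hh => hone S hS h hh)
    _ = W.card * ∑ S ∈ 𝒮, M S * (d * k) ^ S.card := by
        simp only [Finset.sum_const, smul_eq_mul]
        rw [Finset.mul_sum]

end Pool.Agent.W962.Generic
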