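import Mathlib
import Pool.Agent.W962.Generic.Main
import Pool.Agent.W962.Generic.Cover

/-!
# Exact Triangle in tripartite form
-/

set_option autoImplicit false

namespace Pool.Agent.W962.Generic.Tri

open MvPolynomial

/-- The variables: the three blocks of edges between the three parts. -/
abbrev Var (m : ℕ) : Type := Fin 3 × Fin m × Fin m

/-- The edges of the triangle `T = (i, j, k)`. -/
def dir {m : ℕ} (b : Fin 3) (T : Fin m × Fin m × Fin m) : Var m :=
  match b with
  | 0 => (0, T.1, T.2.1)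
  | 1 => (1, T.2.1, T.2.2)
  | 2 => (2, T.2.2, T.1)

/-- The block `b`. -/
def blk (m : ℕ) (b : Fin 3) : Finset (Var m) := Finset.univ.filter fun v => v.1 = b

noncomputable def rho {m : ℕ} (T : Fin m × Fin m × Fin m) : MvPolynomial (Var m) ℤ :=
  X (dir 1 T) + X (dir 2 T)

theorem dir_fst {m : ℕ} (b : Fin 3) (T : Fin m × Fin m × Fin m) : (dir b T).1 = b := by
  fin_cases b <;> rfl

theorem cover {m : ℕ} (d k : ℕ) (W : Finset (MvPolynomial (Var m) ℤ))
    (hk : W.card < 2 ^ (k + 1)) (hd : ∀ f ∈ W, f.totalDegree ≤ d)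
    (C : Finset (Fin m × Fin m × Fin m))
    (hC : ∀ T ∈ C, ∃ f ∈ W, ∃ g ∈ W, f ≠ g ∧ X (dir 0 T) + rho T ∣ f - g) :
    C.card ≤ W.card * (3 * (d * k) ^ 2) := by
  classical
  have h := cover_bound (blk m) dir (fun b T => by simp [blk, dir_fst]) d k W hk hd C ?_
    ({{0, 1}, {1, 2}, {0, 2}} : Finset (Finset (Fin 3))) (by decide) (fun _ => 1) ?_
  · refine h.trans (Nat.mul_le_mul_left _ (le_of_eq ?_))
    rw [Finset.sum_insert (by decide), Finset.sum_insert (by decide), Finset.sum_singleton]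
    have c1 : ({0, 1} : Finset (Fin 3)).card = 2 := by decide
    have c2 : ({1, 2} : Finset (Fin 3)).card = 2 := by decide
    have c3 : ({0, 2} : Finset (Fin 3)).card = 2 := by decide
    rw [c1, c2, c3]
    ring
  · intro T hT
    obtain ⟨f, hf, g, hg, hne, hdvd⟩ := hC T hT
    refine ⟨f, hf, g, hg, fun b => ⟨hne, ?_⟩⟩
    have hv : ∀ (b b' b'' : Fin 3), b' ≠ b → b'' ≠ b →
        ∀ s ∈ (X (dir b' T) + X (dir b'' T) : MvPolynomial (Var m) ℤ).vars, s ∉ blk m b := by
      intro b b' b'' h1 h2 s hs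
      have h3 := vars_add_subset _ _ hs
      rw [vars_X, vars_X, Finset.mem_union, Finset.mem_singleton, Finset.mem_singleton] at h3
      rcases h3 with rfl | rfl
      · simp [blk, dir_fst, h1]
      · simp [blk, dir_fst, h2]
    fin_cases b
    · exact ⟨X (dir 1 T) + X (dir 2 T), hv 0 1 2 (by decide) (by decide), hdvd⟩
    · refine ⟨X (dir 0 T) + X (dir 2 T), hv 1 0 2 (by decide) (by decide), ?_⟩
      have e : X (dir 1 T) + (X (dir 0 T) + X (dir 2 T)) =
        (X (dir 0 T) + rho T : MvPolynomial (Var m) ℤ) := by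
        simp only [rho]; ring
      exact e ▸ hdvd
    · refine ⟨X (dir 0 T) + X (dir 1 T), hv 2 0 1 (by decide) (by decide), ?_⟩
      have e : X (dir 2 T) + (X (dir 0 T) + X (dir 1 T)) =
        (X (dir 0 T) + rho T : MvPolynomial (Var m) ℤ) := by
        simp only [rho]; ring
      exact e ▸ hdvd
  · intro S hS T₀ _ F hF
    rw [Finset.card_le_one]
    intro T hT T' hT'
    have hT := (hF T hT).2
    have hT' := (hF T' hT').2
    have hTT : ∀ i ∈ S, dir i T = dir i T' := fun i hi => (hT i hi).trans (hT' i hi).symm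
    obtain ⟨i, j, k⟩ := T
    obtain ⟨i', j', k'⟩ := T'
    simp only [Finset.mem_insert, Finset.mem_singleton] at hS
    rcases hS with rfl | rfl | rfl
    · have h0 := hTT 0 (by decide)
      have h1 := hTT 1 (by decide)
      simp only [dir, Prod.mk.injEq] at h0 h1 ⊢
      exact ⟨h0.2.1, h0.2.2, h1.2.2⟩
    · have h0 := hTT 1 (by decide)
      have h1 := hTT 2 (by decide)
      simp only [dir, Prod.mk.injEq] at h0 h1 ⊢
      exact ⟨h1.2.2, h0.2.1, h0.2.2⟩
    · have h0 := hTT 0 (by decide)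
      have h1 := hTT 2 (by decide)
      simp only [dir, Prod.mk.injEq] at h0 h1 ⊢
      exact ⟨h0.2.1, h0.2.2, h1.2.1⟩

end Pool.Agent.W962.Generic.Tri
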