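import Mathlib
import Pool.Agent.W962.Generic.Model

/-!
# Algorithms which compute a fixed list of values
-/

set_option autoImplicit false

namespace Pool.Agent.W962.Generic

open MvPolynomial

variable {σ : Type} {d : ℕ}

/-- The algorithm which computes the values of `F 0, F 1, …`. -/
noncomputable def nonad (F : ℕ → MvPolynomial σ ℤ) (hF : ∀ i, (F i).totalDegree ≤ d)
    (out : List (List (Option ℤ) × ℤ × Option ℤ) → Bool) : RingAlgorithm σ d where
  next h := F h.length
  degree_le h := hF _
  output := out

theorem nonad_run (F : ℕ → MvPolynomial σ ℤ) (hF : ∀ i, (F i).totalDegree ≤ d)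
    (out : List (List (Option ℤ) × ℤ × Option ℤ) → Bool) (q K : ℤ) (x : σ → ℤ) (t : ℕ) :
    (nonad F hF out).run q K x t = (((List.range t).map fun i => eval x (F i)).reverse,
      ((List.range t).map fun s => answer q K (((List.range s).map fun i => eval x (F i)).reverse)
        (eval x (F s))).reverse) := by
  induction t with
  | zero => simp [RingAlgorithm.run]
  | succ t ih =>
    have h1 : (nonad F hF out).next ((nonad F hF out).run q K x t).2 = F t := by
      rw [ih]
      simp [nonad]
    rw [RingAlgorithm.run]
    simp only [h1]
    rw [ih, List.range_succ]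
    simp

/-- The entry for the two values with the numbers `k < s`. -/
def entry (h : List (List (Option ℤ) × ℤ × Option ℤ)) (s k : ℕ) : Option ℤ :=
  (h.reverse.getD s default).1.reverse.getD k none

theorem entry_eq (F : ℕ → MvPolynomial σ ℤ) (hF : ∀ i, (F i).totalDegree ≤ d)
    (out : List (List (Option ℤ) × ℤ × Option ℤ) → Bool) (q : ℤ) (K : ℕ) (x : σ → ℤ) (t s k : ℕ)
    (hs : s < t) (hk : k < s) :
    entry ((nonad F hF out).run q K x t).2 s k = some 0 ↔ eval x (F k) = eval x (F s) := by
  have h1 : ((nonad F hF out).run q K x t).2.reverse.getD s default =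
      answer q K (((List.range s).map fun i => eval x (F i)).reverse) (eval x (F s)) := by
    rw [nonad_run, List.reverse_reverse, List.getD_eq_getElem _ _ (by simpa using hs)]
    simp
  unfold entry
  rw [h1]
  simp only [answer]
  rw [← List.map_reverse, List.reverse_reverse, List.getD_eq_getElem _ _ (by simpa using hk)]
  simp only [List.getElem_map, List.getElem_range]
  constructor
  · intro h
    split_ifs at h
    have := Option.some.inj h
    omega
  · intro h
    rw [h]
    simp

/-- Whether the values with the numbers `a` and `b` are equal. -/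
def same (h : List (List (Option ℤ) × ℤ × Option ℤ)) (a b : ℕ) : Prop :=
  a = b ∨ (a < b ∧ entry h b a = some 0) ∨ (b < a ∧ entry h a b = some 0)

theorem same_iff (F : ℕ → MvPolynomial σ ℤ) (hF : ∀ i, (F i).totalDegree ≤ d)
    (out : List (List (Option ℤ) × ℤ × Option ℤ) → Bool) (q : ℤ) (K : ℕ) (x : σ → ℤ) (t a b : ℕ)
    (ha : a < t) (hb : b < t) :
    same ((nonad F hF out).run q K x t).2 a b ↔ eval x (F a) = eval x (F b) := by
  unfold same
  rcases lt_trichotomy a b with h | h | h
  · rw [entry_eq F hF out q K x t b a hb h]
    constructor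
    · rintro (h' | h' | h')
      · omega
      · exact h'.2
      · omega
    · intro h'; exact Or.inr (Or.inl ⟨h, h'⟩)
  · subst h; simp
  · rw [entry_eq F hF out q K x t a b ha h]
    constructor
    · rintro (h' | h' | h')
      · omega
      · omega
      · exact h'.2.symm
    · intro h'; exact Or.inr (Or.inr ⟨h, h'.symm⟩)

end Pool.Agent.W962.Generic
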