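import Mathlib
import Pool.Agent.W962.Generic.Main

/-!
# From randomised algorithms to sets of polynomials, for algorithms which are correct on valid
# inputs
-/

set_option autoImplicit false

namespace Pool.Agent.W962.Generic

open MvPolynomial

variable {σ : Type} {d : ℕ} [Fintype σ] [DecidableEq σ]

theorem tinyV (a b : Prop) [Decidable a] [Decidable b] [Decidable (a ∧ b)] :
    (if b then 1 else 0) + (if a then 1 else 0) ≤ 1 + if a ∧ b then 1 else 0 := by
  by_cases ha : a <;> by_cases hb : b <;> simp [ha, hb]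

variable {Λ : Type} [Fintype Λ]

/-- **Main reduction.** -/
theorem mainV {Ω : Type} (p : PMF Ω) (A : Ω → RingAlgorithm σ d) (q : ℤ) (K N : ℕ)
    (S : Finset ℤ) (hSq : ∀ s ∈ S, q ∣ s) (v : Λ → σ) (ρ : Λ → MvPolynomial σ ℤ)
    (hρ1 : ∀ T, (ρ T).totalDegree ≤ 1) (hρ0 : ∀ T, eval 0 (ρ T) = 0)
    (Pr Val : (σ → ℤ) → Prop)
    (hP : ∀ x ∈ Fintype.piFinset (fun _ : σ => S), ∀ T, Pr (plant (v T) (ρ T) x))
    (e : ℕ) (hPe : ∀ F : Finset (σ → ℤ),
      (∀ x ∈ F, x ∈ Fintype.piFinset (fun _ : σ => S) ∧ (Pr x ∨ ¬ Val x)) →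
      S.card * F.card ≤ e * (Fintype.piFinset (fun _ : σ => S)).card) (he : 24 * e ≤ S.card)
    (e' : ℕ) (hPe' : ∀ T, ∀ F : Finset (σ → ℤ),
      (∀ x ∈ F, x ∈ Fintype.piFinset (fun _ : σ => S) ∧ ¬ Val (plant (v T) (ρ T) x)) →
      S.card * F.card ≤ e' * (Fintype.piFinset (fun _ : σ => S)).card) (he' : 24 * e' ≤ S.card)
    (hS : 24 * ((N + 1) * (N + 1) * (2 * K + 1) * d) ≤ S.card) (hSpos : 0 < S.card)
    (h1 : ∀ x ∈ Fintype.piFinset (fun _ : σ => S), Val x →
      (2 / 3 : ENNReal) ≤ p.toOuterMeasure {ω | (A ω).accepts q K N x = true ↔ Pr x})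
    (h2 : ∀ x ∈ Fintype.piFinset (fun _ : σ => S), ∀ T, Val (plant (v T) (ρ T) x) →
      (2 / 3 : ENNReal) ≤ p.toOuterMeasure
        {ω | (A ω).accepts q K N (plant (v T) (ρ T) x) = true ↔ Pr (plant (v T) (ρ T) x)}) :
    ∃ W : Finset (MvPolynomial σ ℤ), W.card ≤ N + 1 ∧ (∀ f ∈ W, f.totalDegree ≤ d) ∧
      ∃ C : Finset Λ, Fintype.card Λ ≤ 6 * C.card ∧
        ∀ T ∈ C, ∃ f ∈ W, ∃ g ∈ W, f ≠ g ∧ X (v T) + ρ T ∣ f - g := by
  classical
  set cube := Fintype.piFinset (fun _ : σ => S) with hcube
  have hcubepos : 0 < cube.card := by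
    rw [hcube, Fintype.card_piFinset, Finset.prod_const]
    exact pow_pos hSpos _
  -- Yao
  let I : Finset (((σ → ℤ) × Λ) × Bool) := (cube ×ˢ Finset.univ) ×ˢ Finset.univ
  let y : ((σ → ℤ) × Λ) × Bool → (σ → ℤ) := fun i =>
    if i.2 then plant (v i.1.2) (ρ i.1.2) i.1.1 else i.1.1
  have hfull : (2 / 3 : ENNReal) ≤ p.toOuterMeasure Set.univ := by
    rw [PMF.toOuterMeasure_apply, Set.indicator_univ, p.tsum_coe]
    exact ENNReal.div_le_of_le_mul (by norm_num)
  obtain ⟨ω, hω⟩ := exists_good p I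
    (fun i => {ω | Val (y i) → ((A ω).accepts q K N (y i) = true ↔ Pr (y i))}) (by
      rintro ⟨⟨x, T⟩, b⟩ hi
      have hx : x ∈ cube := (Finset.mem_product.1 (Finset.mem_product.1 hi).1).1
      have hgen : ∀ z : σ → ℤ, (Val z → (2 / 3 : ENNReal) ≤
          p.toOuterMeasure {ω | (A ω).accepts q K N z = true ↔ Pr z}) →
          (2 / 3 : ENNReal) ≤ p.toOuterMeasure
            {ω | Val z → ((A ω).accepts q K N z = true ↔ Pr z)} := by
        intro z hz
        by_cases c : Val z
        · have e1 : {ω | Val z → ((A ω).accepts q K N z = true ↔ Pr z)} =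
              {ω | (A ω).accepts q K N z = true ↔ Pr z} := by
            ext ω'
            simp only [Set.mem_ofPred_eq]
            exact ⟨fun h => h c, fun h _ => h⟩
          rw [e1]
          exact hz c
        · have e1 : {ω | Val z → ((A ω).accepts q K N z = true ↔ Pr z)} = Set.univ := by
            ext ω'
            simp only [Set.mem_ofPred_eq, Set.mem_univ, iff_true]
            exact fun h => absurd h c
          rw [e1]
          exact hfull
      cases b
      · exact hgen _ (h1 x hx)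
      · exact hgen _ (h2 x hx T))
  set L := (sym (A ω) q K N).1 with hL
  set W₀ := lf L with hW₀
  have hW₀card : W₀.card ≤ N := by
    refine (lf_card _).trans ?_
    rw [hL, sym_length]
  have hW₀deg : ∀ f ∈ W₀, f.totalDegree ≤ d := fun f hf =>
    sym_degree (A ω) q K N f ((mem_lf L f).1 hf)
  have hD : (diffs K W₀).card ≤ (N + 1) * (N + 1) * (2 * K + 1) := by
    refine (diffs_card K W₀).trans ?_
    gcongr
  refine ⟨normal W₀, (normal_card W₀).trans (by omega), normal_degree W₀ hW₀deg,
    Finset.univ.filter fun T : Λ => ∃ f ∈ normal W₀, ∃ g ∈ normal W₀,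
      f ≠ g ∧ X (v T) + ρ T ∣ f - g, ?_, fun T hT => (Finset.mem_filter.1 hT).2⟩
  set Cov := Finset.univ.filter fun T : Λ =>
    ∃ f ∈ normal W₀, ∃ g ∈ normal W₀, f ≠ g ∧ X (v T) + ρ T ∣ f - g with hCov
  -- the bad pairs
  set bad1 := cube.filter fun x => ∃ r ∈ diffs K W₀, eval x r = 0 with hbad1
  set bad2 : Λ → Finset (σ → ℤ) := fun T =>
    cube.filter fun x => ∃ r ∈ diffs K W₀, eval (plant (v T) (ρ T) x) r = 0 with hbad2
  set bad3 : Λ → Finset (σ → ℤ) := fun T =>
    cube.filter fun x => ¬ Val (plant (v T) (ρ T) x) with hbad3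
  have hb1 : S.card * bad1.card ≤ ((N + 1) * (N + 1) * (2 * K + 1)) * d * cube.card := by
    have hsub : bad1 ⊆ (diffs K W₀).biUnion fun r => cube.filter fun x => eval x r = 0 := by
      intro x hx
      obtain ⟨hx1, r, hr, hxr⟩ := Finset.mem_filter.1 hx
      exact Finset.mem_biUnion.2 ⟨r, hr, Finset.mem_filter.2 ⟨hx1, hxr⟩⟩
    calc S.card * bad1.card ≤ S.card * ∑ r ∈ diffs K W₀, (cube.filter fun x => eval x r = 0).card :=
          Nat.mul_le_mul_left _ ((Finset.card_le_card hsub).trans Finset.card_biUnion_le)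
      _ = ∑ r ∈ diffs K W₀, S.card * (cube.filter fun x => eval x r = 0).card := by
          rw [Finset.mul_sum]
      _ ≤ ∑ r ∈ diffs K W₀, d * cube.card := by
          refine Finset.sum_le_sum fun r hr => ?_
          exact schwartz_zippel r (diffs_ne_zero K W₀ r hr) d (diffs_degree K W₀ hW₀deg r hr) S
      _ = (diffs K W₀).card * (d * cube.card) := by rw [Finset.sum_const, smul_eq_mul]
      _ ≤ ((N + 1) * (N + 1) * (2 * K + 1)) * (d * cube.card) := Nat.mul_le_mul_right _ hD
      _ = _ := by ring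
  have hχ0 : ∀ T, eval (0 : σ → ℤ) (X (v T) + ρ T) = 0 := fun T => by
    rw [map_add, hρ0 T, eval_X, add_zero, Pi.zero_apply]
  have hb2 : ∀ T, T ∉ Cov →
      S.card * (bad2 T).card ≤ ((N + 1) * (N + 1) * (2 * K + 1)) * d * cube.card := by
    intro T hT
    have hsub : bad2 T ⊆ (diffs K W₀).biUnion fun r =>
        cube.filter fun x => eval (plant (v T) (ρ T) x) r = 0 := by
      intro x hx
      obtain ⟨hx1, r, hr, hxr⟩ := Finset.mem_filter.1 hx
      exact Finset.mem_biUnion.2 ⟨r, hr, Finset.mem_filter.2 ⟨hx1, hxr⟩⟩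
    calc S.card * (bad2 T).card
        ≤ S.card * ∑ r ∈ diffs K W₀, (cube.filter fun x => eval (plant (v T) (ρ T) x) r = 0).card :=
          Nat.mul_le_mul_left _ ((Finset.card_le_card hsub).trans Finset.card_biUnion_le)
      _ = ∑ r ∈ diffs K W₀, S.card *
          (cube.filter fun x => eval (plant (v T) (ρ T) x) r = 0).card := by
          rw [Finset.mul_sum]
      _ ≤ ∑ r ∈ diffs K W₀, d * cube.card := by
          refine Finset.sum_le_sum fun r hr => ?_
          refine count_plant (v T) (ρ T) (hρ1 T) S r (diffs_degree K W₀ hW₀deg r hr) fun hdvd => ?_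
          exact hT (Finset.mem_filter.2 ⟨Finset.mem_univ _,
            covered_of_dvd K W₀ _ (hχ0 T) r hr hdvd⟩)
      _ = (diffs K W₀).card * (d * cube.card) := by rw [Finset.sum_const, smul_eq_mul]
      _ ≤ ((N + 1) * (N + 1) * (2 * K + 1)) * (d * cube.card) := Nat.mul_le_mul_right _ hD
      _ = _ := by ring
  have hb3 : ∀ T, S.card * (bad3 T).card ≤ e' * cube.card := fun T =>
    hPe' T _ fun x hx => Finset.mem_filter.1 hx
  -- both correct implies bad
  set yes := cube.filter fun x => Pr x ∨ ¬ Val x with hyes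
  set both := (cube ×ˢ (Finset.univ : Finset Λ)).filter fun z =>
    (Val z.1 → ((A ω).accepts q K N z.1 = true ↔ Pr z.1)) ∧
      (Val (plant (v z.2) (ρ z.2) z.1) →
        ((A ω).accepts q K N (plant (v z.2) (ρ z.2) z.1) = true ↔ Pr (plant (v z.2) (ρ z.2) z.1)))
    with hboth
  have hcorrect : (I.filter fun i =>
      ω ∈ {ω | Val (y i) → ((A ω).accepts q K N (y i) = true ↔ Pr (y i))}).card ≤
      cube.card * Fintype.card Λ + both.card := by
    rw [Finset.card_filter, Finset.sum_product]
    have e2 : cube.card * Fintype.card Λ =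
        ∑ z ∈ cube ×ˢ (Finset.univ : Finset Λ), 1 := by
      rw [Finset.sum_const, Finset.card_product, smul_eq_mul, mul_one, Finset.card_univ]
    rw [e2, hboth, Finset.card_filter, ← Finset.sum_add_distrib]
    refine Finset.sum_le_sum fun z _ => ?_
    rw [Fintype.sum_bool]
    simp only [Set.mem_ofPred_eq, y, if_true, Bool.false_eq_true, if_false]
    exact tinyV _ _
  have hbothsub : both ⊆ ((bad1 ∪ yes) ×ˢ (Finset.univ : Finset Λ)) ∪ (cube ×ˢ Cov) ∪
      ((Finset.univ.filter fun T => T ∉ Cov).biUnion fun T => bad2 T ×ˢ {T}) ∪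
      (Finset.univ : Finset Λ).biUnion fun T => bad3 T ×ˢ {T} := by
    intro z hz
    obtain ⟨hz1, hz2, hz3⟩ := Finset.mem_filter.1 hz
    have hx : z.1 ∈ cube := (Finset.mem_product.1 hz1).1
    by_cases hT : z.2 ∈ Cov
    · exact Finset.mem_union_left _ (Finset.mem_union_left _ (Finset.mem_union_right _
        (Finset.mem_product.2 ⟨hx, hT⟩)))
    by_cases c0 : z.1 ∈ yes
    · exact Finset.mem_union_left _ (Finset.mem_union_left _ (Finset.mem_union_left _
        (Finset.mem_product.2 ⟨Finset.mem_union_right _ c0, Finset.mem_univ _⟩)))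
    by_cases c3 : z.1 ∈ bad3 z.2
    · exact Finset.mem_union_right _ (Finset.mem_biUnion.2 ⟨z.2, Finset.mem_univ _,
        Finset.mem_product.2 ⟨c3, Finset.mem_singleton_self _⟩⟩)
    have v1 : Val z.1 := by
      by_contra h
      exact c0 (Finset.mem_filter.2 ⟨hx, Or.inr h⟩)
    have v2 : Val (plant (v z.2) (ρ z.2) z.1) := by
      by_contra h
      exact c3 (Finset.mem_filter.2 ⟨hx, h⟩)
    rcases both_bad (A ω) q K N z.1 (fun i => hSq _ (Fintype.mem_piFinset.1 hx i)) (v z.2) (ρ z.2)
      (hρ0 z.2) Pr (hz2 v1) (hz3 v2) (hP z.1 hx z.2) with hc | hc | hc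
    · exact Finset.mem_union_left _ (Finset.mem_union_left _ (Finset.mem_union_left _
        (Finset.mem_product.2 ⟨Finset.mem_union_left _ (Finset.mem_filter.2 ⟨hx, hc⟩),
          Finset.mem_univ _⟩)))
    · exact absurd (Finset.mem_filter.2 ⟨hx, Or.inl hc⟩) c0
    · exact Finset.mem_union_left _ (Finset.mem_union_right _ (Finset.mem_biUnion.2 ⟨z.2,
          Finset.mem_filter.2 ⟨Finset.mem_univ _, hT⟩, Finset.mem_product.2
          ⟨Finset.mem_filter.2 ⟨hx, hc⟩, Finset.mem_singleton_self _⟩⟩))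
  have hbothcard : both.card ≤ (bad1.card + yes.card) * Fintype.card Λ +
      cube.card * Cov.card + ∑ T ∈ Finset.univ.filter (fun T => T ∉ Cov), (bad2 T).card +
      ∑ T : Λ, (bad3 T).card := by
    refine (Finset.card_le_card hbothsub).trans ((Finset.card_union_le _ _).trans
      (Nat.add_le_add ((Finset.card_union_le _ _).trans (Nat.add_le_add
        ((Finset.card_union_le _ _).trans (Nat.add_le_add ?_ ?_)) ?_)) ?_))
    · rw [Finset.card_product, Finset.card_univ]
      exact Nat.mul_le_mul_right _ (Finset.card_union_le _ _)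
    · rw [Finset.card_product]
    · refine Finset.card_biUnion_le.trans (Finset.sum_le_sum fun T _ => ?_)
      rw [Finset.card_product, Finset.card_singleton, mul_one]
    · refine Finset.card_biUnion_le.trans (Finset.sum_le_sum fun T _ => ?_)
      rw [Finset.card_product, Finset.card_singleton, mul_one]
  have hsum : S.card * ∑ T ∈ Finset.univ.filter (fun T => T ∉ Cov), (bad2 T).card ≤
      Fintype.card Λ * (((N + 1) * (N + 1) * (2 * K + 1)) * d * cube.card) := by
    rw [Finset.mul_sum]
    refine (Finset.sum_le_sum fun T hT => hb2 T (Finset.mem_filter.1 hT).2).trans ?_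
    rw [Finset.sum_const, smul_eq_mul]
    exact Nat.mul_le_mul_right _ ((Finset.card_filter_le _ _).trans (by rw [Finset.card_univ]))
  have hsum3 : S.card * ∑ T : Λ, (bad3 T).card ≤ Fintype.card Λ * (e' * cube.card) := by
    rw [Finset.mul_sum]
    refine (Finset.sum_le_sum fun T _ => hb3 T).trans ?_
    rw [Finset.sum_const, smul_eq_mul, Finset.card_univ]
  have hIcard : I.card = 2 * (cube.card * Fintype.card Λ) := by
    simp only [I, Finset.card_product, Finset.card_univ, Fintype.card_bool]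
    ring
  -- arithmetic
  have g1 : cube.card * Fintype.card Λ ≤ 3 * both.card := by
    have h5 := hω (I.filter fun i =>
      ω ∈ {ω | Val (y i) → ((A ω).accepts q K N (y i) = true ↔ Pr (y i))})
      (fun i hi h => Finset.mem_filter.2 ⟨hi, h⟩)
    rw [hIcard] at h5
    omega
  have hyes' : S.card * yes.card ≤ e * cube.card :=
    hPe _ fun x hx => Finset.mem_filter.1 hx
  set D := ((N + 1) * (N + 1) * (2 * K + 1)) * d with hDdef
  have g2 : S.card * both.card ≤ Fintype.card Λ * (D * cube.card) +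
      Fintype.card Λ * (e * cube.card) + S.card * (cube.card * Cov.card) +
      Fintype.card Λ * (D * cube.card) + Fintype.card Λ * (e' * cube.card) := by
    calc S.card * both.card ≤ S.card * ((bad1.card + yes.card) * Fintype.card Λ +
      cube.card * Cov.card + ∑ T ∈ Finset.univ.filter (fun T => T ∉ Cov), (bad2 T).card +
      ∑ T : Λ, (bad3 T).card) := Nat.mul_le_mul_left _ hbothcard
      _ = Fintype.card Λ * (S.card * bad1.card) + Fintype.card Λ * (S.card * yes.card) +
          S.card * (cube.card * Cov.card) +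
          S.card * ∑ T ∈ Finset.univ.filter (fun T => T ∉ Cov), (bad2 T).card +
          S.card * ∑ T : Λ, (bad3 T).card := by ring
      _ ≤ _ := by
          gcongr
  by_contra hcon
  push Not at hcon
  have hΛpos : 0 < Fintype.card Λ := by omega
  have k1 : (S.card : ℤ) * cube.card * Fintype.card Λ ≤ 3 * (S.card * both.card) := by
    have : S.card * (cube.card * Fintype.card Λ) ≤ S.card * (3 * both.card) :=
      Nat.mul_le_mul_left _ g1
    have h' : (S.card : ℤ) * (cube.card * Fintype.card Λ) ≤ S.card * (3 * both.card) := by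
      exact_mod_cast this
    linarith
  have k2 : (S.card : ℤ) * both.card ≤ Fintype.card Λ * (D * cube.card) +
      Fintype.card Λ * (e * cube.card) + S.card * (cube.card * Cov.card) +
      Fintype.card Λ * (D * cube.card) + Fintype.card Λ * (e' * cube.card) := by exact_mod_cast g2
  have k3 : (24 : ℤ) * D ≤ S.card := by exact_mod_cast hS
  have k4 : (24 : ℤ) * e ≤ S.card := by exact_mod_cast he
  have k4' : (24 : ℤ) * e' ≤ S.card := by exact_mod_cast he'
  have k5 : (6 : ℤ) * Cov.card < Fintype.card Λ := by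
    exact_mod_cast hcon
  have k6 : (0 : ℤ) < cube.card * Fintype.card Λ := by exact_mod_cast Nat.mul_pos hcubepos hΛpos
  have k7 : (0 : ℤ) < S.card * cube.card := by exact_mod_cast Nat.mul_pos hSpos hcubepos
  have m3 := mul_le_mul_of_nonneg_right k3 k6.le
  have m4 := mul_le_mul_of_nonneg_right k4 k6.le
  have m4' := mul_le_mul_of_nonneg_right k4' k6.le
  have m5 := mul_lt_mul_of_pos_left k5 k7
  nlinarith

end Pool.Agent.W962.Generic
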