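import Mathlib
import Pool.Agent.W962.Generic.Main
import Pool.Agent.W962.Generic.Cover

/-!
# 3SUM: how many solutions can be covered
-/

set_option autoImplicit false

namespace Pool.Agent.W962.Generic.Sum3

open MvPolynomial

/-- The index of the member of the block `b` in the triple `T`. -/
def dir {n m : ℕ} (hmn : 3 * m ≤ n) (b : Fin 3) (T : Fin 3 → Fin m) : Fin n :=
  ⟨b.1 * m + (T b).1, by
    have h1 := b.2
    have h2 := (T b).2
    have h3 : b.1 * m ≤ 2 * m := Nat.mul_le_mul_right _ (by omega)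
    omega⟩

/-- The block `b`. -/
def blk (n m : ℕ) (b : Fin 3) : Finset (Fin n) := Finset.univ.filter fun i => i.1 / m = b.1

theorem dir_mem {n m : ℕ} (hmn : 3 * m ≤ n) (b : Fin 3) (T : Fin 3 → Fin m) :
    dir hmn b T ∈ blk n m b := by
  have h2 := (T b).2
  have hm : 0 < m := by omega
  refine Finset.mem_filter.2 ⟨Finset.mem_univ _, ?_⟩
  change (b.1 * m + (T b).1) / m = b.1
  rw [mul_comm, Nat.mul_add_div hm, Nat.div_eq_of_lt h2, add_zero]

theorem dir_notMem {n m : ℕ} (hmn : 3 * m ≤ n) (b b' : Fin 3) (h : b' ≠ b) (T : Fin 3 → Fin m) :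
    dir hmn b' T ∉ blk n m b := by
  intro h1
  have h2 := (Finset.mem_filter.1 h1).2
  have h3 := (Finset.mem_filter.1 (dir_mem hmn b' T)).2
  exact h (Fin.ext (h3.symm.trans h2))

theorem dir_ne {n m : ℕ} (hmn : 3 * m ≤ n) (b b' : Fin 3) (h : b' ≠ b) (T : Fin 3 → Fin m) :
    dir hmn b' T ≠ dir hmn b T := fun h' =>
  dir_notMem hmn b b' h T (h' ▸ dir_mem hmn b T)

theorem cover {n m : ℕ} (hmn : 3 * m ≤ n) (d k : ℕ) (W : Finset (MvPolynomial (Fin n) ℤ))
    (hk : W.card < 2 ^ (k + 1)) (hd : ∀ f ∈ W, f.totalDegree ≤ d)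
    (C : Finset (Fin 3 → Fin m))
    (hC : ∀ T ∈ C, ∃ f ∈ W, ∃ g ∈ W, f ≠ g ∧
      X (dir hmn 0 T) + (X (dir hmn 1 T) + X (dir hmn 2 T)) ∣ f - g) :
    C.card ≤ W.card * (3 * (m * (d * k) ^ 2)) := by
  classical
  have h := cover_bound (blk n m) (dir hmn) (dir_mem hmn) d k W hk hd C ?_
    ({{0, 1}, {1, 2}, {0, 2}} : Finset (Finset (Fin 3))) (by decide) (fun _ => m) ?_
  · refine h.trans (Nat.mul_le_mul_left _ (le_of_eq ?_))
    rw [Finset.sum_insert (by decide), Finset.sum_insert (by decide), Finset.sum_singleton]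
    have c1 : ({0, 1} : Finset (Fin 3)).card = 2 := by decide
    have c2 : ({1, 2} : Finset (Fin 3)).card = 2 := by decide
    have c3 : ({0, 2} : Finset (Fin 3)).card = 2 := by decide
    rw [c1, c2, c3]
    ring
  · intro T hT
    obtain ⟨f, hf, g, hg, hne, hdvd⟩ := hC T hT
    refine ⟨f, hf, g, hg, fun b => ⟨hne, ?_⟩⟩
    have hv : ∀ (b b' b'' : Fin 3), b' ≠ b → b'' ≠ b →
        ∀ s ∈ (X (dir hmn b' T) + X (dir hmn b'' T) : MvPolynomial (Fin n) ℤ).vars,
          s ∉ blk n m b := by
      intro b b' b'' h1 h2 s hs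
      have h3 := vars_add_subset _ _ hs
      rw [vars_X, vars_X, Finset.mem_union, Finset.mem_singleton, Finset.mem_singleton] at h3
      rcases h3 with rfl | rfl
      · exact dir_notMem hmn b b' h1 T
      · exact dir_notMem hmn b b'' h2 T
    fin_cases b
    · exact ⟨X (dir hmn 1 T) + X (dir hmn 2 T), hv 0 1 2 (by decide) (by decide), hdvd⟩
    · refine ⟨X (dir hmn 0 T) + X (dir hmn 2 T), hv 1 0 2 (by decide) (by decide), ?_⟩
      have e : X (dir hmn 1 T) + (X (dir hmn 0 T) + X (dir hmn 2 T)) =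
        (X (dir hmn 0 T) + (X (dir hmn 1 T) + X (dir hmn 2 T)) : MvPolynomial (Fin n) ℤ) := by
        ring
      exact e ▸ hdvd
    · refine ⟨X (dir hmn 0 T) + X (dir hmn 1 T), hv 2 0 1 (by decide) (by decide), ?_⟩
      have e : X (dir hmn 2 T) + (X (dir hmn 0 T) + X (dir hmn 1 T)) =
        (X (dir hmn 0 T) + (X (dir hmn 1 T) + X (dir hmn 2 T)) : MvPolynomial (Fin n) ℤ) := by
        ring
      exact e ▸ hdvd
  · intro S hS T₀ _ F hF
    have hinj : ∀ b T, T ∈ F → b ∈ S → T b = T₀ b := by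
      intro b T hT hb
      have h1 := (hF T hT).2 b hb
      have h2 := congrArg Fin.val h1
      simp only [dir] at h2
      exact Fin.ext (by omega)
    have key : ∀ c : Fin 3, (∀ b, b ≠ c → b ∈ S) → F.card ≤ m := by
      intro c hc
      calc F.card ≤ (Finset.univ : Finset (Fin m)).card := by
            refine Finset.card_le_card_of_injOn (fun T => T c) (fun _ _ => Finset.mem_coe.2
              (Finset.mem_univ _)) ?_
            intro T hT T' hT' hTT
            funext b
            by_cases hb : b = c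
            · rw [hb]; exact hTT
            · rw [hinj b T (Finset.mem_coe.1 hT) (hc b hb),
                hinj b T' (Finset.mem_coe.1 hT') (hc b hb)]
        _ = m := by rw [Finset.card_univ, Fintype.card_fin]
    simp only [Finset.mem_insert, Finset.mem_singleton] at hS
    rcases hS with rfl | rfl | rfl
    · exact key 2 (by decide)
    · exact key 0 (by decide)
    · exact key 1 (by decide)

end Pool.Agent.W962.Generic.Sum3
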