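import Mathlib
import Pool.Agent.W962.Generic.Iso

/-!
# Finite sets of polynomials in which every element has many neighbours, up to constants
-/

set_option autoImplicit false

namespace Pool.Agent.W962.Generic

open MvPolynomial

variable {σ : Type*} {R : Type*} [CommRing R]

/-- `f` and `g` are different and for some constant `c` and some polynomial `r`, in which no
variable of the block `B` occurs, `X b + r` divides `f - g + c`. -/
def DirC (B : Finset σ) (f g : MvPolynomial σ R) (b : σ) : Prop :=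
  f ≠ g ∧ ∃ r : MvPolynomial σ R, (∀ s ∈ r.vars, s ∉ B) ∧ ∃ c : R, (X b + r) ∣ f - g + C c

theorem DirC.symm {B : Finset σ} {f g : MvPolynomial σ R} {b : σ} (h : DirC B f g b) :
    DirC B g f b := by
  obtain ⟨h1, r, h2, c, h3⟩ := h
  refine ⟨h1.symm, r, h2, -c, ?_⟩
  have e : g - f + C (-c) = -(f - g + C c) := by
    rw [C_neg]; ring
  rw [e]
  exact (dvd_neg).2 h3

open Classical in
/-- The directions of `f` in `W` in the block `B`. -/
noncomputable def dirsC (B : Finset σ) (W : Finset (MvPolynomial σ R)) (f : MvPolynomial σ R) :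
    Finset σ :=
  B.filter (fun b => ∃ g ∈ W, DirC B f g b)

/-- A polynomial without constant term, different from another one. -/
theorem exists_coeff_ne (f g : MvPolynomial σ R) (hf : coeff 0 f = 0) (hg : coeff 0 g = 0)
    (hfg : f ≠ g) : ∃ μ, μ ≠ 0 ∧ coeff μ f ≠ coeff μ g := by
  by_contra hcon
  push Not at hcon
  refine hfg (MvPolynomial.ext _ _ fun μ => ?_)
  by_cases h : μ = 0
  · rw [h, hf, hg]
  · exact hcon μ h

theorem coeff_C_ne (μ : σ →₀ ℕ) (hμ : μ ≠ 0) (c : R) : coeff μ (C c : MvPolynomial σ R) = 0 := by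
  classical
  rw [coeff_C, if_neg (Ne.symm hμ)]

theorem coeff_eq_of_dirC [IsDomain R] (B : Finset σ) (f g : MvPolynomial σ R) (b : σ) (hb : b ∈ B)
    (h : DirC B f g b) (μ : σ →₀ ℕ) (hμ0 : μ ≠ 0) (hf : coeff 0 f = 0) (hg : coeff 0 g = 0)
    (hbμ : b ∉ μ.support)
    (hmax : ∀ μ' : σ →₀ ℕ, bd B μ < bd B μ' → coeff μ' f = coeff μ' g) :
    coeff μ f = coeff μ g := by
  classical
  obtain ⟨hfg, r, hr, c, q, hq⟩ := h
  have hq0 : q ≠ 0 := by
    rintro rfl
    rw [mul_zero] at hq
    obtain ⟨ν, hν, hne⟩ := exists_coeff_ne f g hf hg hfg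
    have := congrArg (coeff ν) hq
    rw [coeff_add, coeff_sub, coeff_C_ne ν hν, coeff_zero, add_zero] at this
    exact hne (sub_eq_zero.1 this)
  obtain ⟨ν, hν, hνmax⟩ := Finset.exists_max_image q.support (bd B) (support_nonempty.2 hq0)
  have hne0 : ν + Finsupp.single b 1 ≠ 0 := by
    intro h0
    have := DFunLike.congr_fun h0 b
    simp at this
  have h1 : coeff (ν + Finsupp.single b 1) (f - g + C c) = coeff ν q := by
    rw [hq, add_mul, coeff_add, mul_comm (X b) q, coeff_mul_X,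
      coeff_mul_eq_zero B r q hr (bd B ν) hνmax _ (by rw [bd_add, bd_single B b hb]; omega),
      add_zero]
  have h2 : bd B ν < bd B μ := by
    by_contra hlt
    have h3 := hmax (ν + Finsupp.single b 1) (by rw [bd_add, bd_single B b hb]; omega)
    rw [coeff_add, coeff_C_ne _ hne0, add_zero, coeff_sub, h3, sub_self] at h1
    exact (mem_support_iff.1 hν) h1.symm
  have h3 : coeff μ (f - g + C c) = 0 := by
    rw [hq, add_mul, coeff_add, mul_comm (X b) q, coeff_mul_X',
      coeff_mul_eq_zero B r q hr (bd B ν) hνmax _ h2, if_neg hbμ, add_zero]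
  rw [coeff_add, coeff_C_ne _ hμ0, add_zero, coeff_sub] at h3
  exact sub_eq_zero.1 h3

/-- **Isoperimetric lemma up to constants.** -/
theorem isoC [IsDomain R] (B : Finset σ) (d : ℕ) : ∀ (k : ℕ) (W : Finset (MvPolynomial σ R)),
    W.Nonempty → (∀ f ∈ W, f.totalDegree ≤ d) → (∀ f ∈ W, coeff 0 f = 0) →
    (∀ f ∈ W, d * k < (dirsC B W f).card) →
    2 ^ (k + 1) ≤ W.card := by
  classical
  intro k
  induction k with
  | zero =>
    intro W hW hd h00 h
    obtain ⟨f, hf⟩ := hW
    have h1 := h f hf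
    rw [mul_zero] at h1
    obtain ⟨b, hb⟩ := Finset.card_pos.1 h1
    obtain ⟨-, g, hg, hfg, -⟩ := Finset.mem_filter.1 hb
    have : 1 < W.card := Finset.one_lt_card.2 ⟨f, hf, g, hg, hfg⟩
    rw [zero_add, pow_one]
    exact this
  | succ k ih =>
    intro W hW hd h00 h
    obtain ⟨f, hf⟩ := hW
    have h1 := lt_of_le_of_lt (Nat.zero_le _) (h f hf)
    obtain ⟨b, hb⟩ := Finset.card_pos.1 h1
    obtain ⟨-, g, hg, hfg, -⟩ := Finset.mem_filter.1 hb
    -- a monomial of maximal block degree whose coefficient is not constant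
    let P : Finset (σ →₀ ℕ) :=
      (W.biUnion fun f => f.support).filter fun μ => ∃ f ∈ W, ∃ g ∈ W, coeff μ f ≠ coeff μ g
    have hPmem : ∀ μ : σ →₀ ℕ, (∃ f ∈ W, ∃ g ∈ W, coeff μ f ≠ coeff μ g) → μ ∈ P := by
      rintro μ ⟨f, hf, g, hg, hne⟩
      refine Finset.mem_filter.2 ⟨Finset.mem_biUnion.2 ?_, f, hf, g, hg, hne⟩
      by_cases h0 : coeff μ f = 0
      · exact ⟨g, hg, mem_support_iff.2 fun h => hne (h0.trans h.symm)⟩
      · exact ⟨f, hf, mem_support_iff.2 h0⟩
    have hPne : P.Nonempty := by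
      obtain ⟨μ, -, hμ⟩ := exists_coeff_ne f g (h00 f hf) (h00 g hg) hfg
      exact ⟨μ, hPmem μ ⟨f, hf, g, hg, hμ⟩⟩
    obtain ⟨μ, hμP, hμmax⟩ := Finset.exists_max_image P (bd B) hPne
    obtain ⟨hμ1, f0, hf0, g0, hg0, hne⟩ := Finset.mem_filter.1 hμP
    have hμ0 : μ ≠ 0 := by
      rintro rfl
      exact hne ((h00 f0 hf0).trans (h00 g0 hg0).symm)
    obtain ⟨f1, hf1, hf1μ⟩ := Finset.mem_biUnion.1 hμ1
    have hsupp : μ.support.card ≤ d := card_support_le μ f1 hf1μ d (hd f1 hf1)
    have hconst : ∀ μ' : σ →₀ ℕ, bd B μ < bd B μ' → ∀ f ∈ W, ∀ g ∈ W, coeff μ' f = coeff μ' g := by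
      intro μ' hμ' f hf g hg
      by_contra hcon
      have := hμmax μ' (hPmem μ' ⟨f, hf, g, hg, hcon⟩)
      omega
    have key : ∀ V : Finset (MvPolynomial σ R), V ⊆ W →
        (∀ f ∈ V, ∀ g ∈ W, coeff μ f = coeff μ g → g ∈ V) → V.Nonempty → 2 ^ (k + 1) ≤ V.card := by
      intro V hVW hV hVne
      refine ih V hVne (fun f hf => hd f (hVW hf)) (fun f hf => h00 f (hVW hf)) fun f hf => ?_
      have hsub : dirsC B W f \ μ.support ⊆ dirsC B V f := by
        intro b hb
        obtain ⟨hb1, hb2⟩ := Finset.mem_sdiff.1 hb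
        obtain ⟨hbB, g, hg, hdir⟩ := Finset.mem_filter.1 hb1
        refine Finset.mem_filter.2 ⟨hbB, g, hV f hf g hg ?_, hdir⟩
        exact coeff_eq_of_dirC B f g b hbB hdir μ hμ0 (h00 f (hVW hf)) (h00 g hg) hb2
          fun μ' hμ' => hconst μ' hμ' f (hVW hf) g hg
      have h2 := Finset.card_le_card hsub
      have h3 := Finset.le_card_sdiff μ.support (dirsC B W f)
      have h4 := h f (hVW hf)
      have h5 : d * (k + 1) = d * k + d := by ring
      omega
    have e1 := key (W.filter fun f => coeff μ f = coeff μ f0) (Finset.filter_subset _ _)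
      (fun f hf g hg hfg => Finset.mem_filter.2 ⟨hg, hfg ▸ (Finset.mem_filter.1 hf).2⟩)
      ⟨f0, Finset.mem_filter.2 ⟨hf0, rfl⟩⟩
    have e2 := key (W.filter fun f => ¬ coeff μ f = coeff μ f0) (Finset.filter_subset _ _)
      (fun f hf g hg hfg => Finset.mem_filter.2 ⟨hg, hfg ▸ (Finset.mem_filter.1 hf).2⟩)
      ⟨g0, Finset.mem_filter.2 ⟨hg0, fun h => hne h.symm⟩⟩
    have e3 := Finset.card_filter_add_card_filter_not (s := W) (fun f => coeff μ f = coeff μ f0)
    have e4 : 2 ^ (k + 1 + 1) = 2 ^ (k + 1) + 2 ^ (k + 1) := by ring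
    omega

/-- **Peeling up to constants.** -/
theorem peelC [IsDomain R] (B : Finset σ) (d k : ℕ) : ∀ (n : ℕ) (W : Finset (MvPolynomial σ R)),
    W.card = n → W.card < 2 ^ (k + 1) → (∀ f ∈ W, f.totalDegree ≤ d) → (∀ f ∈ W, coeff 0 f = 0) →
    ∃ r : MvPolynomial σ R → ℕ, Set.InjOn r W ∧
      ∀ f ∈ W, (open Classical in dirsC B (W.filter fun g => r f ≤ r g) f).card ≤ d * k := by
  classical
  intro n
  induction n with
  | zero =>
    intro W hW _ _ _
    have : W = ∅ := Finset.card_eq_zero.1 hW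
    subst this
    exact ⟨fun _ => 0, by simp, by simp⟩
  | succ n ih =>
    intro W hW hk hd h00
    have hne : W.Nonempty := Finset.card_pos.1 (by omega)
    obtain ⟨f0, hf0, hf0d⟩ : ∃ f ∈ W, (dirsC B W f).card ≤ d * k := by
      by_contra hcon
      push Not at hcon
      have := isoC B d k W hne hd h00 hcon
      omega
    have hcard : (W.erase f0).card = n := by rw [Finset.card_erase_of_mem hf0]; omega
    obtain ⟨r, hr, hrd⟩ := ih (W.erase f0) hcard (by omega)
      (fun f hf => hd f (Finset.mem_of_mem_erase hf)) (fun f hf => h00 f (Finset.mem_of_mem_erase hf))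
    refine ⟨fun f => if f = f0 then 0 else r f + 1, ?_, ?_⟩
    · intro f hf g hg hfg
      simp only at hfg
      split_ifs at hfg with h1 h2 h2
      · rw [h1, h2]
      · refine hr ?_ ?_ (by omega)
        · exact Finset.mem_coe.2 (Finset.mem_erase.2 ⟨h1, hf⟩)
        · exact Finset.mem_coe.2 (Finset.mem_erase.2 ⟨h2, hg⟩)
    · intro f hf
      by_cases h1 : f = f0
      · subst h1
        refine le_trans (Finset.card_le_card ?_) hf0d
        intro b hb
        obtain ⟨hb1, g, hg, hdir⟩ := Finset.mem_filter.1 hb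
        exact Finset.mem_filter.2 ⟨hb1, g, (Finset.mem_filter.1 hg).1, hdir⟩
      · have h2 := hrd f (Finset.mem_erase.2 ⟨h1, hf⟩)
        refine le_trans (Finset.card_le_card ?_) h2
        intro b hb
        obtain ⟨hb1, g, hg, hdir⟩ := Finset.mem_filter.1 hb
        refine Finset.mem_filter.2 ⟨hb1, g, ?_, hdir⟩
        obtain ⟨hgW, hle⟩ := Finset.mem_filter.1 hg
        simp only [if_neg h1] at hle
        by_cases h3 : g = f0
        · rw [if_pos h3] at hle
          omega
        · rw [if_neg h3] at hle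
          exact Finset.mem_filter.2 ⟨Finset.mem_erase.2 ⟨h3, hgW⟩, by omega⟩

end Pool.Agent.W962.Generic
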